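import Pool.Agent.H40.NG.Amp2
import Pool.Graph.R_pool_sql_team_seeded_c8625f6e.K4H14.FG.Amp3

/-!
Equidistribution in the classes of most large moduli gives equidistribution for all small moduli:
the transfer.
-/

set_option autoImplicit false

namespace Pool.Agent.H40.NG

open Finset Filter

open Pool.Agent.K4H14.FG (polylog mo alg1 sum_near sqrt_le_real big_err good_multiple sum_split)

variable {Φ : ℕ → ℕ} {Ψ : ℕ → Bool} {κ : ℕ}

/-- a large modulus: the share of a few classes -/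
theorem big_cls {m : ℕ} {L₀ : ℝ} (hcg : Cge Φ m L₀) {X : ℕ} {x L u δ : ℝ} (hLx : L = Real.log X) (hL : 24 ≤ L)
    (hL₀ : L₀ ≤ L) (hδ0 : 0 < δ) (hu : 1 ≤ u)
    (hx0 : 0 < x) (h2 : 100 * L ^ m ≤ δ * u) (s : ℕ) (hs1 : 1 ≤ s) (hsX : s ≤ X)
    (hs : x / u ^ 8 ≤ s) : x / u ^ 32 ≤ δ / 4 * cls Φ s := by
  have hu0 : 0 < u := by linarith
  have h3 : x / u ^ 32 ≤ x / u ^ 8 / u := by
    rw [div_div]
    apply div_le_div_of_nonneg_left hx0.le (by positivity)
    calc u ^ 8 * u = u ^ 9 := by ring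
      _ ≤ u ^ 32 := pow_le_pow_right₀ hu (by norm_num)
  have h4 : x / u ^ 8 / u ≤ s / u := div_le_div_of_nonneg_right hs hu0.le
  refine h3.trans (h4.trans ?_)
  rw [div_le_iff₀ hu0]
  have hlog : Real.log s ≤ L := by
    rw [hLx]
    exact Real.log_le_log (by exact_mod_cast hs1) (by exact_mod_cast hsX)
  have h5 := hcg s hs1 L hL₀ hlog
  have h6 : (cls Φ s : ℝ) * L ^ m ≤ (cls Φ s : ℝ) * (δ * u / 100) := by
    apply mul_le_mul_of_nonneg_left _ (by positivity)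
    linarith
  have h7 : 0 ≤ δ * u * (cls Φ s : ℝ) := by positivity
  have h8 : (cls Φ s : ℝ) * (δ * u / 100) = δ * u * (cls Φ s : ℝ) / 100 := by ring
  have h9 : δ / 4 * (cls Φ s : ℝ) * u = δ * u * (cls Φ s : ℝ) / 4 := by ring
  linarith

theorem transfer [Per Φ κ] {q₀ : ℕ} (hfew : Few Φ Ψ q₀) {m : ℕ} {L₀ : ℝ} (hcg : Cge Φ m L₀) (B : ℕ) (ε : ℝ) (hε : 0 < ε) (hε1 : ε ≤ 1) (δ : ℝ) (hδ0 : 0 < δ)
    (hδ : δ ≤ 1 / 8) :
    ∀ᶠ X : ℕ in atTop, ∀ F : ℕ → ℝ,
      (∑ q ∈ mo B X, ((dv Φ Ψ δ (F q) X q).card : ℝ)) < (X : ℝ) ^ (2 - ε) →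
      0 < cnt Ψ X 1 0 ∧
      (∀ q a : ℕ, 1 ≤ q → (q : ℝ) ≤ (X : ℝ) ^ (ε / 64) → Nat.Coprime (Φ a) q →
        |(cnt Ψ X q a : ℝ) - cnt Ψ X 1 0 / cls Φ q| ≤ 5 * δ * (cnt Ψ X 1 0 / cls Φ q)) ∧
      (∑ q ∈ mo B X, ((bd Φ Ψ (5 * δ) X q).card : ℝ)) < (X : ℝ) ^ (2 - ε / 64) := by
  classical
  have hlog : Tendsto (fun X : ℕ => Real.log X) atTop atTop :=
    Real.tendsto_log_atTop.comp tendsto_natCast_atTop_atTop
  filter_upwards [hlog.eventually_ge_atTop (24 + |L₀|),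
    polylog (B + m + 1) (100 / δ) (ε / 64) (by positivity), eventually_ge_atTop 1,
    lowF (Φ := Φ) (Ψ := Ψ) hcg B ε hε, polylog 0 q₀ (ε / 64) (by positivity)] with X hL' hp hX1 hlow hpq F hsum
  have hL : 24 ≤ Real.log X := by linarith [abs_nonneg L₀]
  have hL₀ : L₀ ≤ Real.log X := by linarith [le_abs_self L₀]
  have hxr : (1 : ℝ) ≤ X := by exact_mod_cast hX1
  obtain ⟨x, hx⟩ : ∃ x : ℝ, x = X := ⟨_, rfl⟩
  obtain ⟨L, hLx⟩ : ∃ L : ℝ, L = Real.log X := ⟨_, rfl⟩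
  obtain ⟨u, hu⟩ : ∃ u : ℝ, u = (X : ℝ) ^ (ε / 64) := ⟨_, rfl⟩
  have hG := hlow (fun q => dv Φ Ψ δ (F q) X q)
    (fun q hq => dv_card δ (F q) hδ0.le (by linarith) X q hq) hsum
  rw [← hLx] at hL hp hG hL₀
  rw [← hx] at hG
  rw [← hu] at hp hpq
  rw [pow_zero, mul_one] at hpq
  have hx1 : 1 ≤ x := by rw [hx]; exact hxr
  have hx0 : 0 < x := by linarith
  have hL0 : 0 < L := by linarith
  have hL1 : 1 ≤ L := by linarith
  have hu64 : u ^ 64 = (X : ℝ) ^ ε := by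
    rw [hu, ← Real.rpow_natCast, ← Real.rpow_mul (by linarith)]
    congr 1
    push_cast
    ring
  have hux : u ^ 64 ≤ x := by
    rw [hu64, hx]
    calc (X : ℝ) ^ ε ≤ (X : ℝ) ^ (1 : ℝ) := Real.rpow_le_rpow_of_exponent_le hxr hε1
      _ = X := Real.rpow_one _
  have hu00 : 0 < u := by rw [hu]; positivity
  have hpow1 : (X : ℝ) ^ (2 - ε) = x ^ 2 / u ^ 64 := by
    rw [Real.rpow_sub (by linarith), Real.rpow_two, hu64, hx]
  have hpow2 : (X : ℝ) ^ (2 - ε / 64) = x ^ 2 / u := by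
    rw [Real.rpow_sub (by linarith), Real.rpow_two, hu, hx]
  have hbase : 100 * L ^ (B + m + 1) ≤ δ * u := by
    have h1 : L ^ (B + m + 1) ≤ (2 * L) ^ (B + m + 1) := pow_le_pow_left₀ hL0.le (by linarith) _
    have h2 : 100 / δ * L ^ (B + m + 1) ≤ u := by
      refine le_trans ?_ hp
      exact mul_le_mul_of_nonneg_left h1 (by positivity)
    have h3 : δ * (100 / δ * L ^ (B + m + 1)) ≤ δ * u := mul_le_mul_of_nonneg_left h2 hδ0.le
    have h4 : δ * (100 / δ * L ^ (B + m + 1)) = 100 * L ^ (B + m + 1) := by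
      field_simp
    linarith
  have hLk : ∀ k : ℕ, k ≤ B + m + 1 → 100 * L ^ k ≤ δ * u := by
    intro k hk
    refine le_trans ?_ hbase
    apply mul_le_mul_of_nonneg_left _ (by norm_num)
    exact pow_le_pow_right₀ hL1 hk
  have hδu : δ * u ≤ u := by
    have := mul_le_mul_of_nonneg_right (by linarith : δ ≤ 1) hu00.le
    linarith
  have hu100 : 100 ≤ u := by
    have := hLk 0 (by omega)
    rw [pow_zero] at this
    linarith
  have hL2 := hLk m (by omega)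
  have hLB := hLk B (by omega)
  have hLB1 : (1 : ℝ) ≤ L ^ B := one_le_pow₀ hL1
  have hGpos : 0 < (cnt Ψ X 1 0 : ℝ) := lt_of_lt_of_le (by positivity) hG
  have hG2 : 100 * x ≤ δ * u * cnt Ψ X 1 0 := by
    rw [div_le_iff₀ (by positivity)] at hG
    have h1 := mul_le_mul_of_nonneg_left hbase hGpos.le
    linarith
  have hGn : 0 < cnt Ψ X 1 0 := by exact_mod_cast hGpos
  have hu8 : u ≤ x / u ^ 8 := by
    rw [le_div_iff₀ (by positivity)]
    calc u * u ^ 8 = u ^ 9 := by ring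
      _ ≤ u ^ 64 := pow_le_pow_right₀ (by linarith) (by norm_num)
      _ ≤ x := hux
  have hqq : ∀ q : ℕ, x / u ^ 8 ≤ q → q₀ ≤ q := by
    intro q hq
    have h1 : (q₀ : ℝ) ≤ q := hpq.trans (hu8.trans hq)
    exact_mod_cast h1
  -- the bad moduli
  set E : Finset ℕ := (mo B X).filter (fun q => ¬ ((dv Φ Ψ δ (F q) X q).card : ℝ) ≤ x / u ^ 32) with hEd
  rw [hpow1] at hsum
  have hE : (E.card : ℝ) ≤ x / u ^ 32 := by
    have h1 : (E.card : ℝ) * (x / u ^ 32) ≤ ∑ q ∈ mo B X, ((dv Φ Ψ δ (F q) X q).card : ℝ) := by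
      have h2 := card_nsmul_le_sum E (fun q => ((dv Φ Ψ δ (F q) X q).card : ℝ)) (x / u ^ 32) (by
        intro q hq
        rw [hEd, mem_filter] at hq
        exact (not_le.1 hq.2).le)
      rw [nsmul_eq_mul] at h2
      exact h2.trans (sum_le_sum_of_subset_of_nonneg (filter_subset _ _)
        (fun _ _ _ => Nat.cast_nonneg _))
    have h2 : (E.card : ℝ) * (x / u ^ 32) < x / u ^ 32 * (x / u ^ 32) := by
      refine lt_of_le_of_lt h1 (hsum.trans_le (le_of_eq ?_))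
      field_simp
    exact (lt_of_mul_lt_mul_right h2 (by positivity)).le
  have hbig : ∀ q ∈ mo B X, q ∉ E → x / u ^ 8 ≤ q →
      ((dv Φ Ψ δ (F q) X q).card : ℝ) ≤ x / u ^ 32 ∧ bd Φ Ψ (4 * δ) X q ⊆ dv Φ Ψ δ (F q) X q := by
    intro q hq hqE hqx
    have hq' := hq
    unfold mo at hq'
    rw [mem_filter, mem_Icc] at hq'
    have h1 : ((dv Φ Ψ δ (F q) X q).card : ℝ) ≤ x / u ^ 32 := by
      by_contra hc
      exact hqE (by rw [hEd, mem_filter]; exact ⟨hq, hc⟩)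
    have hqX : (q : ℝ) ≤ x := by rw [hx]; exact_mod_cast hq'.1.2
    have h2 := big_err (by linarith : (2 : ℝ) ≤ u) hux hG2 q hqx hqX
    refine ⟨h1, bd_sub_dv hfew δ (F q) hδ0 hδ X q hq'.1.1 (hqq q hqx) hGn ?_ ?_⟩
    · exact h1.trans (big_cls hcg hLx hL hL₀ hδ0 (by linarith) hx0 hL2 q hq'.1.1 hq'.1.2 hqx)
    · rw [← hx]
      have h3 : (0 : ℝ) ≤ x / q + 1 := by positivity
      have h4 := mul_le_mul_of_nonneg_right h1 h3
      have h5 : δ / 4 * ((cnt Ψ X 1 0 : ℝ) / u) ≤ δ / 4 * cnt Ψ X 1 0 := by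
        apply mul_le_mul_of_nonneg_left _ (by positivity)
        exact div_le_self hGpos.le (by linarith)
      linarith
  refine ⟨hGn, ?_, ?_⟩
  · intro q a hq hqu hcop
    rw [← hu] at hqu
    obtain ⟨t, ht1, ht2, ht3⟩ := good_multiple hx hLx (by linarith) hux hL (by linarith) E hE q hq hqu
    have hs1 : 1 ≤ 1 + q * t := by omega
    have hqs : 1 + q * t ≤ q * (1 + q * t) := Nat.le_mul_of_pos_left _ hq
    have hqsr : ((1 + q * t : ℕ) : ℝ) ≤ ((q * (1 + q * t) : ℕ) : ℝ) := by exact_mod_cast hqs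
    have hmem := ht2
    unfold mo at hmem
    rw [mem_filter, mem_Icc] at hmem
    obtain ⟨h1, h2⟩ := hbig _ ht2 ht3 (ht1.trans hqsr)
    have hX' : ((q * (1 + q * t) : ℕ) : ℝ) ≤ x := by rw [hx]; exact_mod_cast hmem.1.2
    have h3 := big_err (by linarith : (2 : ℝ) ≤ u) hux hG2 _ (ht1.trans hqsr) hX'
    apply small_of_large hfew δ hδ0 X q (1 + q * t) a hq (hqq _ (ht1.trans hqsr)) hs1 _ hcop (x / u ^ 32)
    · exact le_trans (by exact_mod_cast card_le_card h2) h1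
    · exact big_cls hcg hLx hL hL₀ hδ0 (by linarith) hx0 hL2 _ hs1 (hqs.trans hmem.1.2) ht1
    · rw [← hx]
      refine h3.trans ?_
      apply mul_le_mul_of_nonneg_left _ (by positivity)
      exact div_le_div_of_nonneg_left hGpos.le (by exact_mod_cast hq) hqu
    · rw [Nat.coprime_add_mul_left_right]
      exact Nat.coprime_one_right q
  · rw [hpow2]
    apply sum_split hx (by linarith) hx0 _ (fun q => ((dv Φ Ψ δ (F q) X q).card : ℝ)) E
      (filter_subset _ _) hE hsum (fun _ => Nat.cast_nonneg _)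
    · intro q _
      have h1 : (bd Φ Ψ (5 * δ) X q).card ≤ q := by
        unfold bd
        exact (card_filter_le _ _).trans (card_range q).le
      exact_mod_cast h1
    · intro q hq hqE hqx
      obtain ⟨_, h2⟩ := hbig q hq hqE hqx
      have h3 := card_le_card ((bd_mono (by linarith : 4 * δ ≤ 5 * δ) X q).trans h2)
      exact_mod_cast h3

end Pool.Agent.H40.NG
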