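import Pool.Agent.H40.NG.Core

/-!
Rows and columns.
-/

set_option autoImplicit false

namespace Pool.Agent.H40.NG

open Finset

open Pool.Agent.K4H14.FG (col_sum)

variable {Φ : ℕ → ℕ} {Ψ : ℕ → Bool} {κ : ℕ}

theorem row_main [Per Φ κ] [Prm Φ Ψ] (X q d : ℕ) (δ Wb G : ℝ) (hG0 : 0 < G) (hδ0 : 0 ≤ δ)
    (hδ1 : δ ≤ 1) (hq : 1 ≤ q) (hd : 1 ≤ d) (hqd : Nat.Coprime d q)
    (h1 : 2 * ((κ : ℝ) + 1) ^ q.primeFactors.card * (d : ℝ) ≤ δ * cls Φ q) (h2 : 2 * (q : ℝ) ≤ δ * G)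
    (bad : Finset ℕ) (hbad : ∀ a ∈ range q, Nat.Coprime (Φ a) q → a ∉ bad →
      |(cnt Ψ X q a : ℝ) - G / cls Φ q| ≤ δ * (G / cls Φ q))
    (hWb : ∀ a ∈ bad, (cnt Ψ X q a : ℝ) + G / cls Φ q ≤ Wb) :
    |(row Ψ X q d : ℝ) - G / d| ≤ 4 * δ * (G / d) + bad.card * Wb := by
  classical
  have hdr : (0 : ℝ) < d := by exact_mod_cast hd
  have hc : (0 : ℝ) < cls Φ q := by exact_mod_cast cls_pos q hq
  have hcq : (cls Φ q : ℝ) ≤ q := by exact_mod_cast cls_le q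
  have hA := adm_card (Φ := Φ) q d hq hd hqd
  have hGc : 0 < G / cls Φ q := div_pos hG0 hc
  have e1 : 2 * ((κ : ℝ) + 1) ^ q.primeFactors.card ≤ δ * (cls Φ q / d : ℝ) := by
    rw [mul_div_assoc', le_div_iff₀ hdr]; exact h1
  have e2 : ((adm Φ q d).card : ℝ) ≤ 2 * (cls Φ q / d) := by
    have h3 : δ * (cls Φ q / d : ℝ) ≤ 1 * (cls Φ q / d) :=
      mul_le_mul_of_nonneg_right hδ1 (by positivity)
    have := (abs_le.1 hA).2
    linarith
  have r1 := row_le (Φ := Φ) (Ψ := Ψ) X q d hq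
  have r2 := le_row (Φ := Φ) (Ψ := Ψ) X q d
  have r1' : (row Ψ X q d : ℝ) ≤ ∑ a ∈ adm Φ q d, (cnt Ψ X q a : ℝ) := by exact_mod_cast r1
  have r2' : ∑ a ∈ adm Φ q d, (cnt Ψ X q a : ℝ) ≤ row Ψ X q d + (adm Φ q d).card := by exact_mod_cast r2
  have e3 : ((adm Φ q d).card : ℝ) ≤ δ * (G / d) := by
    calc ((adm Φ q d).card : ℝ) ≤ 2 * (cls Φ q / d) := e2
      _ ≤ 2 * (q / d) := by
          apply mul_le_mul_of_nonneg_left _ (by norm_num)
          exact div_le_div_of_nonneg_right hcq hdr.le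
      _ = (2 * q) / d := by ring
      _ ≤ (δ * G) / d := div_le_div_of_nonneg_right h2 hdr.le
      _ = δ * (G / d) := by ring
  have e4 : |∑ a ∈ adm Φ q d, ((cnt Ψ X q a : ℝ) - G / cls Φ q)| ≤
      (adm Φ q d).card * (δ * (G / cls Φ q)) + bad.card * Wb := by
    have h3 : ∀ a ∈ adm Φ q d, |(cnt Ψ X q a : ℝ) - G / cls Φ q| ≤ δ * (G / cls Φ q) +
        (if a ∈ bad then (cnt Ψ X q a : ℝ) + G / cls Φ q else 0) := by
      intro a ha
      rw [adm, mem_filter] at ha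
      split_ifs with h
      · have : (0 : ℝ) ≤ cnt Ψ X q a := Nat.cast_nonneg _
        have h5 : 0 ≤ δ * (G / cls Φ q) := by positivity
        rw [abs_le]
        constructor <;> linarith
      · rw [add_zero]
        exact hbad a ha.1 ha.2.2 h
    refine (abs_sum_le_sum_abs _ _).trans ((sum_le_sum h3).trans ?_)
    rw [sum_add_distrib, sum_const, nsmul_eq_mul, ← sum_filter]
    have h4 : ∑ a ∈ (adm Φ q d).filter (fun a => a ∈ bad), ((cnt Ψ X q a : ℝ) + G / cls Φ q) ≤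
        bad.card * Wb := by
      have h5 : ∑ a ∈ (adm Φ q d).filter (fun a => a ∈ bad), ((cnt Ψ X q a : ℝ) + G / cls Φ q) ≤
          ∑ a ∈ bad, ((cnt Ψ X q a : ℝ) + G / cls Φ q) := by
        apply sum_le_sum_of_subset_of_nonneg
        · intro a ha
          exact (mem_filter.1 ha).2
        · intro a _ _
          positivity
      refine h5.trans ((sum_le_card_nsmul _ _ _ hWb).trans ?_)
      rw [nsmul_eq_mul]
    linarith
  rw [sum_sub_distrib, sum_const, nsmul_eq_mul] at e4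
  have e5 : ((adm Φ q d).card : ℝ) * (δ * (G / cls Φ q)) ≤ 2 * δ * (G / d) := by
    calc ((adm Φ q d).card : ℝ) * (δ * (G / cls Φ q)) ≤ 2 * (cls Φ q / d) * (δ * (G / cls Φ q)) :=
          mul_le_mul_of_nonneg_right e2 (by positivity)
      _ = 2 * δ * (G / d) := by field_simp
  have e6 : |((adm Φ q d).card : ℝ) * (G / cls Φ q) - G / d| ≤ δ * (G / d) := by
    have h3 : ((adm Φ q d).card : ℝ) * (G / cls Φ q) - G / d =
        (((adm Φ q d).card : ℝ) - cls Φ q / d) * (G / cls Φ q) := by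
      field_simp
    rw [h3, abs_mul, abs_of_pos hGc]
    calc _ ≤ (δ * (cls Φ q / d : ℝ)) * (G / cls Φ q) :=
          mul_le_mul_of_nonneg_right (hA.trans e1) hGc.le
      _ = δ * (G / d) := by field_simp
  rw [abs_le] at e4 e6 ⊢
  constructor <;> linarith [e4.1, e4.2, e6.1, e6.2]

theorem col_main [Per Φ κ] (X P M d s : ℕ) (δ : ℝ) (hP : 1 ≤ P) (hM : 1 ≤ M) (hs : 1 ≤ s) (hd : 1 ≤ d)
    (hX : P * M ≤ X) (hδ0 : 0 ≤ δ) (hδ1 : δ ≤ 1)
    (ha : ∀ t, P * M ≤ t → t ≤ X → |(cnt Ψ t d s : ℝ) - cnt Ψ t 1 0 / cls Φ d| ≤ δ * (cnt Ψ t 1 0 / cls Φ d)) :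
    |∑ m ∈ Ico M (2 * M), ((cnt Ψ (min (P * (s + 1) * m + s) X) d s : ℝ) -
        cnt Ψ (min (P * s * m + (s - 1)) X) d s) -
      (∑ m ∈ Ico M (2 * M), ((cnt Ψ (min (P * (s + 1) * m + s) X) 1 0 : ℝ) -
        cnt Ψ (min (P * s * m + (s - 1)) X) 1 0)) / cls Φ d| ≤
      (6 * M * δ * (cnt Ψ (min (5 * (P * M * s)) X) 1 0 / s) + 6 * cnt Ψ X 1 0) / cls Φ d := by
  have hc : (0 : ℝ) < cls Φ d := by exact_mod_cast cls_pos d hd
  set f₁ : ℕ → ℝ := fun t => (cnt Ψ (min t X) d s : ℝ) with hf₁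
  set f₂ : ℕ → ℝ := fun t => (cnt Ψ (min t X) 1 0 : ℝ) / cls Φ d with hf₂
  have m₁ : Monotone f₁ := by
    intro a b hab
    simp only [hf₁]
    exact_mod_cast cnt_mono (min_le_min_right X hab) d s
  have m₂ : Monotone f₂ := by
    intro a b hab
    simp only [hf₂]
    apply div_le_div_of_nonneg_right _ hc.le
    exact_mod_cast cnt_mono (min_le_min_right X hab) 1 0
  have hPM : 1 ≤ P * M := Nat.mul_pos hP hM
  have hbig : ∀ t, P * M ≤ t → |f₁ t - f₂ t| ≤ δ * f₂ t := by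
    intro t ht
    exact ha (min t X) (le_min ht hX) (min_le_right _ _)
  have hGX : ∀ t, f₂ t ≤ cnt Ψ X 1 0 / cls Φ d := by
    intro t
    simp only [hf₂]
    apply div_le_div_of_nonneg_right _ hc.le
    exact_mod_cast cnt_mono (min_le_right t X) 1 0
  have hle1 : P * M ≤ P * (s + 1) * (2 * M) + s := by
    have : P * M ≤ P * (s + 1) * (2 * M) := by
      calc P * M = P * 1 * (1 * M) := by ring
        _ ≤ P * (s + 1) * (2 * M) :=
          Nat.mul_le_mul (Nat.mul_le_mul_left _ (by omega)) (Nat.mul_le_mul_right _ (by omega))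
    omega
  have hle2 : P * (s + 1) * (2 * M) + s ≤ 5 * (P * M * s) := by
    have h1 : s ≤ P * M * s := Nat.le_mul_of_pos_left s hPM
    have h2 : P * M ≤ P * M * s := Nat.le_mul_of_pos_right _ hs
    have h3 : P * (s + 1) * (2 * M) = 2 * (P * M * s) + 2 * (P * M) := by ring
    omega
  have hη0 : 0 ≤ δ * f₂ (5 * (P * M * s)) := by
    simp only [hf₂]; positivity
  have h := col_sum f₁ f₂ m₁ m₂ (fun t => Nat.cast_nonneg _) (fun t => by simp only [hf₂]; positivity)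
    (2 * (cnt Ψ X 1 0 / cls Φ d)) (cnt Ψ X 1 0 / cls Φ d) (δ * f₂ (5 * (P * M * s))) hη0 P M s hP hM hs
    (by
      have h1 := (abs_le.1 (hbig _ hle1)).2
      have h2 := hGX (P * (s + 1) * (2 * M) + s)
      have h3 : 0 ≤ f₂ (P * (s + 1) * (2 * M) + s) := by simp only [hf₂]; positivity
      nlinarith)
    (hGX _)
    (by
      intro t h1 h2
      have h3 : P * M ≤ t := by
        have : P * M ≤ P * s * M := Nat.mul_le_mul_right _ (Nat.le_mul_of_pos_right _ hs)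
        omega
      refine (hbig t h3).trans (mul_le_mul_of_nonneg_left (m₂ ?_) hδ0)
      omega)
  have e1 : ∑ m ∈ Ico M (2 * M), ((f₁ (P * (s + 1) * m + s) - f₁ (P * s * m + (s - 1))) -
      (f₂ (P * (s + 1) * m + s) - f₂ (P * s * m + (s - 1)))) =
      ∑ m ∈ Ico M (2 * M), ((cnt Ψ (min (P * (s + 1) * m + s) X) d s : ℝ) -
        cnt Ψ (min (P * s * m + (s - 1)) X) d s) -
      (∑ m ∈ Ico M (2 * M), ((cnt Ψ (min (P * (s + 1) * m + s) X) 1 0 : ℝ) -
        cnt Ψ (min (P * s * m + (s - 1)) X) 1 0)) / cls Φ d := by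
    rw [sum_sub_distrib, sum_div]
    simp only [hf₁, hf₂]
    congr 1
    apply sum_congr rfl
    intro m _
    ring
  rw [e1] at h
  refine h.trans (le_of_eq ?_)
  simp only [hf₂]
  ring

end Pool.Agent.H40.NG
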