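import Pool.Agent.H40.NG.Adm
import Pool.Graph.R_pool_sql_team_seeded_c8625f6e.K4H14.FG.Low

/-!
A lower bound for the number of the primes, if few classes are exceptional.
-/

set_option autoImplicit false

namespace Pool.Agent.H40.NG

open Finset Filter

open Pool.Agent.K4H14.FG (polylog omega_le mo)

variable {Φ : ℕ → ℕ} {Ψ : ℕ → Bool} {κ : ℕ}

/-- many classes are admissible -/
def Cge (Φ : ℕ → ℕ) (m : ℕ) (L₀ : ℝ) : Prop :=
  ∀ q : ℕ, 1 ≤ q → ∀ L : ℝ, L₀ ≤ L → Real.log q ≤ L → (q : ℝ) ≤ cls Φ q * L ^ m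

open Classical in
/-- the exceptional classes modulo `q` -/
noncomputable def bd (Φ : ℕ → ℕ) (Ψ : ℕ → Bool) (δ : ℝ) (X q : ℕ) : Finset ℕ := (range q).filter (fun a : ℕ =>
  Nat.Coprime (Φ a) q ∧
    ¬ |(cnt Ψ X q a : ℝ) - cnt Ψ X 1 0 / cls Φ q| ≤ δ * (cnt Ψ X 1 0 / cls Φ q))

theorem bd_card [Per Φ κ] (δ : ℝ) (hδ : δ < 1) (X q : ℕ) (hq : 1 ≤ q) (hG : 0 < cnt Ψ X 1 0) :
    (cls Φ q : ℝ) - cnt Ψ X 1 0 ≤ (bd Φ Ψ δ X q).card := by
  classical
  have hc : (0 : ℝ) < cls Φ q := by exact_mod_cast cls_pos q hq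
  have hGr : (0 : ℝ) < cnt Ψ X 1 0 := by exact_mod_cast hG
  have h1 : cls Φ q ≤ (bd Φ Ψ δ X q).card + ((range q).filter (fun a => cnt Ψ X q a ≠ 0)).card := by
    rw [cls]
    refine le_trans (card_le_card ?_) (card_union_le _ _)
    intro a ha
    rw [mem_filter] at ha
    rw [mem_union]
    by_cases h : cnt Ψ X q a = 0
    · left
      unfold bd
      rw [mem_filter]
      refine ⟨ha.1, ha.2, ?_⟩
      rw [h, Nat.cast_zero, zero_sub, abs_neg, abs_of_pos (by positivity)]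
      have : 0 < (cnt Ψ X 1 0 : ℝ) / cls Φ q := by positivity
      nlinarith
    · right
      rw [mem_filter]
      exact ⟨ha.1, h⟩
  have h2 : ((range q).filter (fun a => cnt Ψ X q a ≠ 0)).card ≤ cnt Ψ X 1 0 := by
    rw [← sum_cnt X q hq, card_eq_sum_ones, sum_filter]
    apply sum_le_sum
    intro a _
    split_ifs with h
    · omega
    · omega
  have h3 : (cls Φ q : ℝ) ≤ (bd Φ Ψ δ X q).card + cnt Ψ X 1 0 := by exact_mod_cast h1.trans (by omega)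
  linarith

theorem lowG [Per Φ κ] {m : ℕ} {L₀ : ℝ} (hcg : Cge Φ m L₀) (B : ℕ) (ε : ℝ) (hε : 0 < ε) :
    ∀ᶠ X : ℕ in atTop, ∀ δ : ℝ, δ < 1 → 0 < cnt Ψ X 1 0 →
      (∑ q ∈ mo B X, ((bd Φ Ψ δ X q).card : ℝ)) < (X : ℝ) ^ (2 - ε) →
      (X : ℝ) / Real.log X ^ (B + m + 1) ≤ cnt Ψ X 1 0 := by
  have hlog : Tendsto (fun X : ℕ => Real.log X) atTop atTop :=
    Real.tendsto_log_atTop.comp tendsto_natCast_atTop_atTop
  filter_upwards [hlog.eventually_ge_atTop (24 + |L₀|), polylog (2 * B + m) 18 ε hε, eventually_ge_atTop 1,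
    polylog B 4 1 one_pos] with X hL' hp hX1 hp2 δ hδ hG hsum
  have hL : 24 ≤ Real.log X := by linarith [abs_nonneg L₀]
  have hL₀ : L₀ ≤ Real.log X := by linarith [le_abs_self L₀]
  by_contra hc
  push Not at hc
  set L := Real.log X with hLdef
  have hL0 : 0 < L := by linarith
  have hXr : (1 : ℝ) ≤ X := by exact_mod_cast hX1
  have hLB : (1 : ℝ) ≤ L ^ B := one_le_pow₀ (by linarith)
  set Q : ℕ := ⌊(X : ℝ) / L ^ B⌋₊ with hQ
  have hQle : (Q : ℝ) ≤ X / L ^ B := Nat.floor_le (by positivity)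
  have hQlt : (X : ℝ) / L ^ B < Q + 1 := Nat.lt_floor_add_one _
  have hbig : (4 : ℝ) ≤ X / L ^ B := by
    rw [le_div_iff₀ (by positivity)]
    rw [Real.rpow_one] at hp2
    refine le_trans ?_ hp2
    apply mul_le_mul_of_nonneg_left _ (by norm_num)
    exact pow_le_pow_left₀ hL0.le (by linarith) B
  have hsub : Ioc (Q / 2) Q ⊆ mo B X := by
    intro q hq
    rw [mem_Ioc] at hq
    unfold mo
    rw [mem_filter, mem_Icc]
    have h1 : (q : ℝ) ≤ X / L ^ B := le_trans (by exact_mod_cast hq.2) hQle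
    have h2 : (q : ℝ) * L ^ B ≤ X := by rwa [le_div_iff₀ (by positivity)] at h1
    refine ⟨⟨by omega, ?_⟩, h2⟩
    have : (q : ℝ) ≤ X := by nlinarith [Nat.cast_nonneg (α := ℝ) q]
    exact_mod_cast this
  have h1 : ∀ q ∈ Ioc (Q / 2) Q, (X : ℝ) / (6 * L ^ (B + m)) ≤ (bd Φ Ψ δ X q).card := by
    intro q hq
    rw [mem_Ioc] at hq
    have hq1 : 1 ≤ q := by omega
    refine le_trans ?_ (bd_card δ hδ X q hq1 hG)
    have hqX : (q : ℝ) ≤ X := by
      have h2 : (q : ℝ) ≤ X / L ^ B := le_trans (by exact_mod_cast hq.2) hQle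
      exact h2.trans (div_le_self (by linarith) hLB)
    have h3 : (q : ℝ) / L ^ m ≤ cls Φ q := by
      rw [div_le_iff₀ (by positivity)]
      exact hcg q hq1 L hL₀ (Real.log_le_log (by exact_mod_cast hq1) hqX)
    have h4 : (X : ℝ) / L ^ B / 3 ≤ q := by
      have h5 : (Q : ℝ) + 1 ≤ 2 * q := by exact_mod_cast (by omega : Q + 1 ≤ 2 * q)
      have h6 : (X : ℝ) / L ^ B ≤ 2 * q := by linarith
      linarith [Nat.cast_nonneg (α := ℝ) q]
    have h5 : (X : ℝ) / (3 * L ^ (B + m)) ≤ cls Φ q := by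
      calc (X : ℝ) / (3 * L ^ (B + m)) = (X : ℝ) / L ^ B / 3 / L ^ m := by
            rw [pow_add]
            field_simp
        _ ≤ (q : ℝ) / L ^ m := div_le_div_of_nonneg_right h4 (by positivity)
        _ ≤ cls Φ q := h3
    have h6 : (X : ℝ) / L ^ (B + m + 1) ≤ (X : ℝ) / (6 * L ^ (B + m)) := by
      apply div_le_div_of_nonneg_left (by linarith) (by positivity)
      have h8 : L ^ (B + m + 1) = L ^ (B + m) * L := by ring
      rw [h8]
      have h7 := mul_nonneg (pow_pos hL0 (B + m)).le (sub_nonneg.2 hL)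
      nlinarith [pow_pos hL0 (B + m)]
    have h7 : (X : ℝ) / (3 * L ^ (B + m)) = 2 * ((X : ℝ) / (6 * L ^ (B + m))) := by
      field_simp
      norm_num
    have h8 : 0 ≤ (X : ℝ) / (6 * L ^ (B + m)) := by positivity
    linarith
  have h2 : ((Ioc (Q / 2) Q).card : ℝ) * ((X : ℝ) / (6 * L ^ (B + m))) ≤
      ∑ q ∈ mo B X, ((bd Φ Ψ δ X q).card : ℝ) := by
    have h3 := card_nsmul_le_sum _ _ _ h1
    rw [nsmul_eq_mul] at h3
    refine h3.trans (sum_le_sum_of_subset_of_nonneg hsub (fun _ _ _ => Nat.cast_nonneg _))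
  have h3 : (X : ℝ) / L ^ B / 3 ≤ ((Ioc (Q / 2) Q).card : ℝ) := by
    rw [Nat.card_Ioc]
    have h4 : (Q : ℝ) ≤ 2 * ((Q - Q / 2 : ℕ) : ℝ) := by exact_mod_cast (by omega : Q ≤ 2 * (Q - Q / 2))
    linarith
  have h4 : (X : ℝ) ^ (2 - ε) ≤ (X : ℝ) / L ^ B / 3 * ((X : ℝ) / (6 * L ^ (B + m))) := by
    have h5 : (X : ℝ) / L ^ B / 3 * ((X : ℝ) / (6 * L ^ (B + m))) = X ^ 2 / (18 * L ^ (2 * B + m)) := by
      field_simp
      ring
    rw [h5, le_div_iff₀ (by positivity), Real.rpow_sub (by linarith), div_mul_eq_mul_div,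
      div_le_iff₀ (by positivity), Real.rpow_two]
    apply mul_le_mul_of_nonneg_left _ (by positivity)
    refine le_trans ?_ hp
    rw [mul_pow]
    have h6 : (1 : ℝ) ≤ 2 ^ (2 * B + m) := one_le_pow₀ (by norm_num)
    nlinarith [pow_pos hL0 (2 * B + m)]
  have h5 : (X : ℝ) / L ^ B / 3 * ((X : ℝ) / (6 * L ^ (B + m))) ≤
      ((Ioc (Q / 2) Q).card : ℝ) * ((X : ℝ) / (6 * L ^ (B + m))) :=
    mul_le_mul_of_nonneg_right h3 (by positivity)
  linarith

end Pool.Agent.H40.NG
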