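import Pool.Agent.H40.NG.Core3
import Pool.Agent.H40.NG.Low
import Pool.Graph.R_pool_sql_team_seeded_c8625f6e.K4H14.FG.Main
import Pool.Graph.R_seed8.Y882.PX.Ro

/-!
Choice of the scales.
-/

set_option autoImplicit false

namespace Pool.Agent.H40.NG

open Finset Filter

open Pool.Agent.K4H14.FG (win th th_mono th_top th_half UJ PJ UJ_prime PJ_pos PJ_primeFactors PJ_dvd
  win_disj shift_sum dyadic reg PJ_le four_pow_le polylog mo)

variable {Φ : ℕ → ℕ} {Ψ : ℕ → Bool} {κ : ℕ}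

theorem main_aux [Per Φ κ] [Prm Φ Ψ] (K : ℝ) (hK : 1 ≤ K) (g : ℕ)
    (hup : ∀ n : ℕ, (Φ n : ℝ) ≤ K * (n + 1) ^ g) {μ : ℕ} {L₀ : ℝ} (hcg : Cge Φ μ L₀)
    (hwins : ∀ N : ℕ, 1 ≤ N → ∀ᶠ z : ℝ in atTop, ∀ j ∈ range N, ∏ p ∈ win z N j, lf Φ p ≤ 1 - 1 / (4 * N))
    (B E N : ℕ) (hE : E = B + μ + 1) (hN : N = 2 * (g * (3 * E + 1)) + 2) (ε : ℝ) (hε : 0 < ε)
    (hε1 : ε ≤ 1) (δ : ℝ) (hδ0 : 0 < δ) (hδ1 : δ < 1) :
    ∃ x₀ : ℕ, ∀ x : ℕ, x₀ ≤ x → (∀ X : ℕ, x ≤ 2 * X →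
      (X : ℝ) ≤ 32 * (2 * Real.log x) ^ (3 * E + 1) * x → 0 < cnt Ψ X 1 0 ∧
      (∀ q a : ℕ, 1 ≤ q → (q : ℝ) ≤ (X : ℝ) ^ ε → Nat.Coprime (Φ a) q →
        |(cnt Ψ X q a : ℝ) - cnt Ψ X 1 0 / cls Φ q| ≤ δ * (cnt Ψ X 1 0 / cls Φ q)) ∧
      ∑ q ∈ mo B X, ((bd Φ Ψ δ X q).card : ℝ) < (X : ℝ) ^ (2 - ε)) →
    (1 / (4 * (N : ℝ))) ^ N ≤ 2 ^ N * (54 * δ) := by
  obtain ⟨X₁, hX₁⟩ := eventually_atTop.1 (lowG (Φ := Φ) (Ψ := Ψ) hcg B ε hε)
  rw [← hE] at hX₁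
  obtain ⟨C₃, hC₃1, hC₃⟩ := Pool.Agent.Y882.PX.pow_card_le (κ + 1) (1 / 8) (by norm_num)
  have hN1 : 1 ≤ N := by omega
  have hlog : Tendsto (fun X : ℕ => Real.log X) atTop atTop :=
    Real.tendsto_log_atTop.comp tendsto_natCast_atTop_atTop
  have hzt : Tendsto (fun X : ℕ => ε * Real.log X / 16) atTop atTop := by
    have := (hlog.const_mul_atTop hε).atTop_div_const (show (0 : ℝ) < 16 by norm_num)
    exact this
  have hwin := hwins N hN1
  have hev : ∀ᶠ x : ℕ in atTop, (∀ j ∈ range N, ∏ p ∈ win (ε * Real.log x / 16) N j, lf Φ p ≤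
      1 - 1 / (4 * N)) ∧ 1 ≤ ε * Real.log x / 16 ∧ 48 + |L₀| ≤ Real.log x ∧ 6 / δ ≤ Real.log x ∧
      2 * K * 64 ^ g * (32 / ε) ^ (g * (3 * E + 1) + 1) ≤ Real.log x ∧
      32 * (2 * Real.log x) ^ (3 * E + 1) ≤ (x : ℝ) ^ (1 : ℝ) ∧
      8 * (2 * Real.log x) ^ 0 ≤ (x : ℝ) ^ (9 * ε / 10) ∧
      98304 / δ * (2 * Real.log x) ^ (6 * E + 2 + (E + μ)) ≤ (x : ℝ) ^ (4 * ε / 5) ∧
      (16 * C₃ / δ) * (2 * Real.log x) ^ μ ≤ (x : ℝ) ^ (31 / 40 : ℝ) ∧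
      3072 / δ * (2 * Real.log x) ^ (3 * E + 1) ≤ (x : ℝ) ^ (9 / 10 : ℝ) ∧
      8 * (2 * Real.log x) ^ 0 ≤ (x : ℝ) ^ (9 / 10 : ℝ) ∧
      2 * X₁ + 16 ≤ x := by
    refine (hzt.eventually hwin).and ((hzt.eventually_ge_atTop 1).and ((hlog.eventually_ge_atTop _).and
      ((hlog.eventually_ge_atTop _).and ((hlog.eventually_ge_atTop _).and
      ((polylog _ _ _ (by norm_num)).and ((polylog _ _ _ (by positivity)).and
      ((polylog _ _ _ (by positivity)).and ((polylog _ _ _ (by norm_num)).and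
      ((polylog _ _ _ (by norm_num)).and ((polylog _ _ _ (by norm_num)).and
      (eventually_ge_atTop _)))))))))))
  obtain ⟨x₀, hx₀⟩ := eventually_atTop.1 hev
  refine ⟨x₀, fun x hx H => ?_⟩
  obtain ⟨hw, hz1, hL48', hLδ, hLε, p1, p2, p3, p4, p5, p6, hxX⟩ := hx₀ x hx
  have hL48 : 48 ≤ Real.log x := by linarith [abs_nonneg L₀]
  have hx16 : (16 : ℝ) ≤ x := by
    have : 16 ≤ x := by omega
    exact_mod_cast this
  have hx0 : (0 : ℝ) < x := by linarith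
  have hx1 : (1 : ℝ) ≤ x := by linarith
  have hz4 := four_pow_le ε hε x hx1
  generalize hl : Real.log (x : ℝ) = l at *
  set L := 2 * l with hLdef
  set z := ε * l / 16 with hz
  have hL96 : 96 ≤ L := by linarith
  have hLL₀ : L₀ ≤ L := by linarith [le_abs_self L₀]
  have hL0 : 0 < L := by linarith
  have hL1 : 1 ≤ L := by linarith
  have hPle' := PJ_le z hz1 N hN1
  have hP1 : 1 ≤ PJ z N (range N) := PJ_pos z N _
  generalize hP : PJ z N (range N) = P at hPle' hP1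
  have hPr : (1 : ℝ) ≤ P := by exact_mod_cast hP1
  have hPle : (P : ℝ) ≤ 4 * (x : ℝ) ^ (ε / 10) :=
    hPle'.trans (mul_le_mul_of_nonneg_left hz4 (by norm_num))
  rw [pow_zero, mul_one] at p2 p6
  rw [Real.rpow_one] at p1
  have hx10 : (x : ℝ) ^ (ε / 10) ≤ (x : ℝ) ^ (1 / 10 : ℝ) :=
    Real.rpow_le_rpow_of_exponent_le hx1 (by linarith)
  have hxprod : (x : ℝ) = (x : ℝ) ^ (1 / 10 : ℝ) * (x : ℝ) ^ (9 / 10 : ℝ) := by
    rw [← Real.rpow_add hx0]; norm_num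
  have hx10pos : 0 < (x : ℝ) ^ (1 / 10 : ℝ) := by positivity
  have hPx : 2 * (P : ℝ) ≤ x := by
    rw [hxprod]
    nlinarith
  obtain ⟨M, hM⟩ : ∃ M, M = x / P := ⟨_, rfl⟩
  have hPMle : P * M ≤ x := by rw [hM]; exact Nat.mul_div_le x P
  have hPMge : (x : ℝ) / 2 ≤ (P : ℝ) * M := by
    have h1 : x < P * M + P := by
      rw [hM]
      have := Nat.lt_mul_div_succ x hP1
      rwa [mul_add, mul_one] at this
    have h2 : (x : ℝ) < P * M + P := by exact_mod_cast h1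
    linarith
  have hPMler : (P : ℝ) * M ≤ x := by exact_mod_cast hPMle
  have hM0 : 1 ≤ M := by
    by_contra h
    have : M = 0 := by omega
    rw [this, Nat.cast_zero, mul_zero] at hPMge
    linarith
  have hMr : (1 : ℝ) ≤ M := by exact_mod_cast hM0
  have hMge : (x : ℝ) ^ (9 / 10 : ℝ) / 8 ≤ M := by
    have h1 : (x : ℝ) / 2 ≤ (4 * (x : ℝ) ^ (1 / 10 : ℝ)) * M := by
      refine hPMge.trans ?_
      apply mul_le_mul_of_nonneg_right _ (by linarith)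
      linarith
    have h2 : (x : ℝ) ^ (1 / 10 : ℝ) * ((x : ℝ) ^ (9 / 10 : ℝ) / 8) ≤ (x : ℝ) ^ (1 / 10 : ℝ) * M := by
      have : (x : ℝ) ^ (1 / 10 : ℝ) * ((x : ℝ) ^ (9 / 10 : ℝ) / 8) = x / 8 := by
        rw [mul_div_assoc', ← hxprod]
      rw [this]
      linarith
    exact le_of_mul_le_mul_left h2 hx10pos
  -- the scales
  obtain ⟨n₀, hn₀, hn₀'⟩ := exists_nat_pow_near (one_le_pow₀ hL1 : 1 ≤ L ^ (E + 1))
    (show (1 : ℝ) < 2 by norm_num)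
  have hLB3 : 1 ≤ L ^ E := one_le_pow₀ hL1
  obtain ⟨n₁, hn₁, hn₁'⟩ := exists_nat_pow_near (by linarith : 1 ≤ 2 * L ^ E)
    (show (1 : ℝ) < 2 by norm_num)
  have hscale : ∀ i, i ≤ n₀ + 1 + 2 * (n₁ + 1) → (2 : ℝ) ^ i ≤ 32 * L ^ (3 * E + 1) := by
    intro i hi
    calc (2 : ℝ) ^ i ≤ 2 ^ (n₀ + 1 + 2 * (n₁ + 1)) := pow_le_pow_right₀ (by norm_num) hi
      _ = 8 * (2 ^ n₀ * (2 ^ n₁) ^ 2) := by ring
      _ ≤ 8 * (L ^ (E + 1) * (2 * L ^ E) ^ 2) := by gcongr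
      _ = 32 * L ^ (3 * E + 1) := by ring
  have hXle : ∀ i, i ≤ n₀ + 1 + 2 * (n₁ + 1) → ((2 ^ i * (P * M) : ℕ) : ℝ) ≤ (x : ℝ) ^ 2 := by
    intro i hi
    have h1 := (hscale i hi).trans p1
    push_cast
    calc (2 : ℝ) ^ i * (P * M) ≤ x * x := by gcongr
      _ = (x : ℝ) ^ 2 := by ring
  have hXge : ∀ i, P * M ≤ 2 ^ i * (P * M) := fun i => Nat.le_mul_of_pos_left _ (by positivity)
  have hXlog : ∀ i, i ≤ n₀ + 1 + 2 * (n₁ + 1) → Real.log ((2 ^ i * (P * M) : ℕ) : ℝ) ≤ L := by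
    intro i hi
    have h1 : (0 : ℝ) < ((2 ^ i * (P * M) : ℕ) : ℝ) := by positivity
    have h2 := Real.log_le_log h1 (hXle i hi)
    rw [Real.log_pow, hl] at h2
    exact_mod_cast h2
  have hXup : ∀ i, i ≤ n₀ + 1 + 2 * (n₁ + 1) → ((2 ^ i * (P * M) : ℕ) : ℝ) ≤
      32 * L ^ (3 * E + 1) * x := by
    intro i hi
    have h1 := hscale i hi
    push_cast
    gcongr
  have hbig : ∀ t : ℕ, P * M ≤ t → x ≤ 2 * t ∧ X₁ ≤ t ∧ 8 ≤ t := by
    intro t ht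
    have h1 : (x : ℝ) / 2 ≤ t := hPMge.trans (by exact_mod_cast ht)
    have h2 : x ≤ 2 * t := by
      have : (x : ℝ) ≤ 2 * t := by linarith
      exact_mod_cast this
    omega
  have hlow : ∀ i, i ≤ n₀ + 1 + 2 * (n₁ + 1) → ((2 ^ i * (P * M) : ℕ) : ℝ) / L ^ E ≤
      cnt Ψ (2 ^ i * (P * M)) 1 0 := by
    intro i hi
    obtain ⟨b1, b2, b3⟩ := hbig _ (hXge i)
    obtain ⟨g1, _, g3⟩ := H _ b1 (hXup i hi)
    refine le_trans ?_ (hX₁ _ b2 δ hδ1 g1 g3)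
    have h1 : 0 < Real.log ((2 ^ i * (P * M) : ℕ) : ℝ) :=
      Real.log_pos (by exact_mod_cast (by omega : 1 < 2 ^ i * (P * M)))
    apply div_le_div_of_nonneg_left (by positivity) (by positivity)
    exact pow_le_pow_left₀ h1.le (hXlog i hi) _
  -- the regular scale
  obtain ⟨k, hk1, hk2, hreg⟩ := reg (fun i => (cnt Ψ (2 ^ i * (P * M)) 1 0 : ℝ)) (n₀ + 1)
    (2 * (n₁ + 1)) (2 ^ (n₀ + 2) * (P * M)) (2 ^ (n₀ + 1 + 2 * (n₁ + 1)) * (P * M) / L ^ E)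
    (by
      have h1 : ∀ n : ℕ, ∑ i ∈ range n, (cnt Ψ (2 ^ i * (P * M)) 1 0 : ℝ) ≤ 2 ^ n * (P * M) := by
        intro n
        induction n with
        | zero => simp; positivity
        | succ n ih =>
          rw [sum_range_succ, pow_succ]
          have h2 : (cnt Ψ (2 ^ n * (P * M)) 1 0 : ℝ) ≤ 2 ^ n * (P * M) := by
            exact_mod_cast cnt_le_self (2 ^ n * (P * M)) 1 0
          linarith
      exact h1 (n₀ + 1 + 1))
    (fun i => Nat.cast_nonneg _)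
    (by
      have := hlow (n₀ + 1 + 2 * (n₁ + 1)) le_rfl
      push_cast at this
      exact this)
    (by
      have hPM0 : (0 : ℝ) < P * M := by positivity
      rw [lt_div_iff₀ (by positivity)]
      have h1 : (4 / 3 : ℝ) ^ (2 * (n₁ + 1)) * (2 ^ (n₀ + 2) * (P * M)) * L ^ E =
          (2 ^ (n₀ + 1) * (P * M)) * ((16 / 9 : ℝ) ^ (n₁ + 1) * (2 * L ^ E)) := by
        rw [pow_mul, pow_succ 2 (n₀ + 1)]
        norm_num
        ring
      have h2 : (2 : ℝ) ^ (n₀ + 1 + 2 * (n₁ + 1)) * (P * M) =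
          (2 ^ (n₀ + 1) * (P * M)) * (4 : ℝ) ^ (n₁ + 1) := by
        rw [pow_add, pow_mul]
        norm_num
        ring
      rw [h1, h2]
      apply mul_lt_mul_of_pos_left _ (by positivity)
      calc (16 / 9 : ℝ) ^ (n₁ + 1) * (2 * L ^ E) < (16 / 9 : ℝ) ^ (n₁ + 1) * 2 ^ (n₁ + 1) :=
            mul_lt_mul_of_pos_left hn₁' (by positivity)
        _ = (32 / 9 : ℝ) ^ (n₁ + 1) := by rw [← mul_pow]; norm_num
        _ ≤ (4 : ℝ) ^ (n₁ + 1) := pow_le_pow_left₀ (by norm_num) (by norm_num) _)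
  have hscale_k := hscale k hk2
  have hXle_k := hXle k hk2
  have hXlog_k := hXlog k hk2
  have hlow_k := hlow k hk2
  have h2k : L ^ (E + 1) ≤ (2 : ℝ) ^ k := hn₀'.le.trans (pow_le_pow_right₀ (by norm_num) hk1)
  have hXup_k := hXup k hk2
  obtain ⟨b1, b2, b3⟩ := hbig _ (hXge k)
  obtain ⟨g1, g2, g3⟩ := H _ b1 hXup_k
  generalize hX : 2 ^ k * (P * M) = X at *
  have hXr : (X : ℝ) = 2 ^ k * (P * M) := by rw [← hX]; push_cast; ring
  have hXx : (x : ℝ) / 2 ≤ X := by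
    have h1 : (P : ℝ) * M ≤ X := by
      rw [hXr]
      have : (1 : ℝ) ≤ 2 ^ k := one_le_pow₀ (by norm_num)
      nlinarith [mul_pos (by linarith : (0:ℝ) < P) (by linarith : (0:ℝ) < M)]
    linarith
  have hX0 : (0 : ℝ) < X := by linarith
  have hlogX : 0 < Real.log X := Real.log_pos (by exact_mod_cast (by omega : 1 < X))
  have hG0 : (0 : ℝ) < cnt Ψ X 1 0 := by exact_mod_cast g1
  have hq : ∀ m ∈ Ico M (2 * M), (P * M : ℝ) ≤ ((1 + P * m : ℕ) : ℝ) ∧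
      ((1 + P * m : ℕ) : ℝ) ≤ 2 * (P * M) ∧ Real.log ((1 + P * m : ℕ) : ℝ) ≤ L := by
    intro m hm
    rw [mem_Ico] at hm
    have h1 : P * M ≤ 1 + P * m := by
      have : P * M ≤ P * m := Nat.mul_le_mul_left _ hm.1
      omega
    have h2 : 1 + P * m ≤ 2 * (P * M) := by
      have h3 : P * (m + 1) ≤ P * (2 * M) := Nat.mul_le_mul_left _ hm.2
      have h4 : P * (2 * M) = 2 * (P * M) := by ring
      have h5 : P * (m + 1) = P * m + P := by ring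
      omega
    have h1' : (P * M : ℝ) ≤ ((1 + P * m : ℕ) : ℝ) := by exact_mod_cast h1
    have h2' : ((1 + P * m : ℕ) : ℝ) ≤ 2 * (P * M) := by exact_mod_cast h2
    refine ⟨h1', h2', ?_⟩
    have h3 : ((1 + P * m : ℕ) : ℝ) ≤ (x : ℝ) ^ 2 := by nlinarith
    have h4 := Real.log_le_log (by positivity) h3
    rw [Real.log_pow, hl] at h4
    exact_mod_cast h4
  have hcls : ∀ m ∈ Ico M (2 * M), ((1 + P * m : ℕ) : ℝ) ≤ cls Φ (1 + P * m) * L ^ μ := by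
    intro m hm
    exact hcg (1 + P * m) (by omega) L hLL₀ (hq m hm).2.2
  refine core N hN1 z hz1 (fun j hj => hw j (mem_range.2 hj)) M k hM0 δ hδ0 hδ1.le X P hP.symm
    hX.symm ?_ g1 ?_ (fun m => bd Φ Ψ δ X (1 + P * m)) ?_ (2 ^ k * (3 * L ^ μ)) ?_ ?_ ?_ ?_ ?_ hreg
  · -- (1)
    intro s hs
    have h1 : ((N : ℝ) / 2) = ((g * (3 * E + 1) + 1 : ℕ) : ℝ) := by rw [hN]; push_cast; ring
    rw [h1, Real.rpow_natCast]
    have h2 : z = ε / 32 * L := by rw [hz, hLdef]; ring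
    rw [h2, mul_pow]
    have h3 : (2 : ℝ) * K * 64 ^ g * L ^ (g * (3 * E + 1)) ≤ (ε / 32) ^ (g * (3 * E + 1) + 1) * L ^ (g * (3 * E + 1) + 1) := by
      have h4 : 2 * K * 64 ^ g * (32 / ε) ^ (g * (3 * E + 1) + 1) ≤ L := by linarith
      have h5 : (ε / 32) ^ (g * (3 * E + 1) + 1) * (32 / ε) ^ (g * (3 * E + 1) + 1) = 1 := by
        rw [← mul_pow]
        have : ε / 32 * (32 / ε) = 1 := by field_simp
        rw [this, one_pow]
      have h6 : L ^ (g * (3 * E + 1) + 1) = L ^ (g * (3 * E + 1)) * L := by ring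
      rw [h6]
      have h7 : (ε / 32) ^ (g * (3 * E + 1) + 1) * (L ^ (g * (3 * E + 1)) * (2 * K * 64 ^ g * (32 / ε) ^ (g * (3 * E + 1) + 1))) ≤
          (ε / 32) ^ (g * (3 * E + 1) + 1) * (L ^ (g * (3 * E + 1)) * L) := by
        gcongr
      have h8 : (ε / 32) ^ (g * (3 * E + 1) + 1) * (L ^ (g * (3 * E + 1)) * (2 * K * 64 ^ g * (32 / ε) ^ (g * (3 * E + 1) + 1))) =
          2 * K * 64 ^ g * L ^ (g * (3 * E + 1)) * ((ε / 32) ^ (g * (3 * E + 1) + 1) * (32 / ε) ^ (g * (3 * E + 1) + 1)) := by ring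
      rw [h8, h5, mul_one] at h7
      exact h7
    refine lt_of_lt_of_le ?_ h3
    have hs1 : (s : ℝ) + 1 ≤ 2 ^ (k + 1) := by exact_mod_cast hs
    have hLp : 0 < K * 64 ^ g * L ^ (g * (3 * E + 1)) := by positivity
    calc ((Φ s : ℕ) : ℝ) ≤ K * ((s : ℝ) + 1) ^ g := hup s
      _ ≤ K * ((2 : ℝ) ^ (k + 1)) ^ g := by gcongr
      _ = K * (2 * 2 ^ k) ^ g := by rw [pow_succ' (2 : ℝ) k]
      _ ≤ K * (2 * (32 * L ^ (3 * E + 1))) ^ g := by gcongr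
      _ = K * 64 ^ g * L ^ (g * (3 * E + 1)) := by
          have e1 : (2 : ℝ) * (32 * L ^ (3 * E + 1)) = 64 * L ^ (3 * E + 1) := by ring
          rw [e1, mul_pow, ← pow_mul, mul_comm (3 * E + 1) g]
          ring
      _ < 2 * K * 64 ^ g * L ^ (g * (3 * E + 1)) := by
          have e2 : 2 * K * 64 ^ g * L ^ (g * (3 * E + 1)) = 2 * (K * 64 ^ g * L ^ (g * (3 * E + 1))) := by ring
          rw [e2]
          linarith
  · -- (3)
    intro t ht1 ht2 d hdP a hcop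
    obtain ⟨c1, c2, c3⟩ := hbig t ht1
    refine (H t c1 (le_trans (by exact_mod_cast ht2) hXup_k)).2.1 d a
      (Nat.pos_of_dvd_of_pos hdP hP1) ?_ hcop
    have h1 : (d : ℝ) ≤ P := by exact_mod_cast Nat.le_of_dvd hP1 hdP
    have h2 : (x : ℝ) / 2 ≤ t := hPMge.trans (by exact_mod_cast ht1)
    calc (d : ℝ) ≤ 4 * (x : ℝ) ^ (ε / 10) := h1.trans hPle
      _ ≤ (x : ℝ) ^ (9 * ε / 10) / 2 * (x : ℝ) ^ (ε / 10) := by
          apply mul_le_mul_of_nonneg_right _ (by positivity)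
          linarith
      _ = (x : ℝ) ^ ε / 2 := by
          rw [div_mul_eq_mul_div, ← Real.rpow_add hx0]
          congr 2
          ring
      _ ≤ ((x : ℝ) / 2) ^ ε := by
          rw [Real.div_rpow hx0.le (by norm_num)]
          apply div_le_div_of_nonneg_left (by positivity) (by positivity)
          calc (2 : ℝ) ^ ε ≤ (2 : ℝ) ^ (1 : ℝ) :=
                Real.rpow_le_rpow_of_exponent_le (by norm_num) hε1
            _ = 2 := Real.rpow_one 2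
      _ ≤ (t : ℝ) ^ ε := Real.rpow_le_rpow (by positivity) h2 hε.le
  · -- bad classes
    intro m _ a ha hcop hnb
    by_contra hc
    apply hnb
    unfold bd
    rw [mem_filter]
    exact ⟨ha, hcop, hc⟩
  · -- (5)
    intro m hm a _
    have h1 : (cnt Ψ X (1 + P * m) a : ℝ) ≤ 2 ^ k + 1 := by
      have h2 := cnt_le_div (Ψ := Ψ) X (1 + P * m) a
      have h3 : X / (1 + P * m) ≤ 2 ^ k := by
        rw [← hX]
        apply Nat.div_le_of_le_mul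
        rw [mul_comm]
        apply Nat.mul_le_mul_right
        have := (hq m hm).1
        exact_mod_cast this
      exact_mod_cast h2.trans (by omega)
    have h2 : (cnt Ψ X 1 0 : ℝ) / cls Φ (1 + P * m) ≤ 2 ^ k * L ^ μ := by
      have hc : (0 : ℝ) < cls Φ (1 + P * m) := by exact_mod_cast cls_pos _ (by omega)
      rw [div_le_iff₀ hc]
      have h3 : (cnt Ψ X 1 0 : ℝ) ≤ X := by exact_mod_cast cnt_le_self X 1 0
      have h4 := hcls m hm
      have h5 := (hq m hm).1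
      calc (cnt Ψ X 1 0 : ℝ) ≤ 2 ^ k * (P * M) := by rw [← hXr]; exact h3
        _ ≤ 2 ^ k * (cls Φ (1 + P * m) * L ^ μ) :=
            mul_le_mul_of_nonneg_left (h5.trans h4) (by positivity)
        _ = _ := by ring
    have h3 : (1 : ℝ) ≤ 2 ^ k := one_le_pow₀ (by norm_num)
    have h4 : (1 : ℝ) ≤ L ^ μ := one_le_pow₀ hL1
    have h5 : (2 : ℝ) ^ k + 1 ≤ 2 ^ k * (2 * L ^ μ) := by nlinarith
    linarith
  · -- (6)
    have hinj : ∑ m ∈ Ico M (2 * M), ((bd Φ Ψ δ X (1 + P * m)).card : ℝ) ≤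
        ∑ q ∈ mo B X, ((bd Φ Ψ δ X q).card : ℝ) := by
      have h1 : ∑ m ∈ Ico M (2 * M), ((bd Φ Ψ δ X (1 + P * m)).card : ℝ) =
          ∑ q ∈ (Ico M (2 * M)).image (fun m => 1 + P * m), ((bd Φ Ψ δ X q).card : ℝ) := by
        rw [sum_image]
        intro a _ b _ hab
        simp only at hab
        have : P * a = P * b := by omega
        exact Nat.eq_of_mul_eq_mul_left (by omega) this
      rw [h1]
      apply sum_le_sum_of_subset_of_nonneg _ (fun _ _ _ => Nat.cast_nonneg _)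
      intro q hq'
      rw [mem_image] at hq'
      obtain ⟨m, hm, rfl⟩ := hq'
      unfold mo
      rw [mem_filter, mem_Icc]
      obtain ⟨q1, q2, q3⟩ := hq m hm
      have h2 : ((1 + P * m : ℕ) : ℝ) * Real.log X ^ B ≤ X := by
        have h3 : Real.log X ^ B ≤ L ^ B := pow_le_pow_left₀ hlogX.le hXlog_k B
        have h4 : 2 * L ^ B ≤ 2 ^ k := by
          refine le_trans ?_ h2k
          have e : L ^ (E + 1) = L ^ (μ + 2) * L ^ B := by rw [hE]; ring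
          rw [e]
          apply mul_le_mul_of_nonneg_right _ (by positivity)
          calc (2 : ℝ) ≤ L := by linarith
            _ = L ^ 1 := (pow_one L).symm
            _ ≤ L ^ (μ + 2) := pow_le_pow_right₀ hL1 (by omega)
        calc ((1 + P * m : ℕ) : ℝ) * Real.log X ^ B ≤ (2 * (P * M)) * L ^ B := by gcongr
          _ = (2 * L ^ B) * (P * M) := by ring
          _ ≤ 2 ^ k * (P * M) := by gcongr
          _ = X := hXr.symm
      refine ⟨⟨by omega, ?_⟩, h2⟩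
      have h3 : (1 + P * m : ℕ) ≤ X := by
        have h4 : ((1 + P * m : ℕ) : ℝ) ≤ X := by
          refine q2.trans ?_
          rw [hXr]
          have h5 : (2 : ℝ) ≤ 2 ^ k := by
            refine le_trans ?_ h2k
            calc (2 : ℝ) ≤ L := by linarith
              _ = L ^ 1 := (pow_one L).symm
              _ ≤ L ^ (E + 1) := pow_le_pow_right₀ hL1 (by omega)
          gcongr
        exact_mod_cast h4
      exact h3
    have h1 : ∑ m ∈ Ico M (2 * M), ((bd Φ Ψ δ X (1 + P * m)).card : ℝ) ≤ (X : ℝ) ^ (2 - ε) :=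
      hinj.trans g3.le
    have hGlow : (X : ℝ) / L ^ E ≤ cnt Ψ X 1 0 := hlow_k
    have h2 : (X : ℝ) ^ (2 - ε) * (2 ^ k * (3 * L ^ μ)) ≤ δ * (M * ((X : ℝ) / L ^ E) / P) := by
      have hXε : (x : ℝ) ^ ε / 2 ≤ (X : ℝ) ^ ε := by
        calc (x : ℝ) ^ ε / 2 ≤ ((x : ℝ) / 2) ^ ε := by
              rw [Real.div_rpow hx0.le (by norm_num)]
              apply div_le_div_of_nonneg_left (by positivity) (by positivity)
              calc (2 : ℝ) ^ ε ≤ (2 : ℝ) ^ (1 : ℝ) :=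
                    Real.rpow_le_rpow_of_exponent_le (by norm_num) hε1
                _ = 2 := Real.rpow_one 2
          _ ≤ (X : ℝ) ^ ε := Real.rpow_le_rpow (by positivity) hXx hε.le
      have hkey : 3 * (2 ^ k) ^ 2 * L ^ (E + μ) * (P : ℝ) ^ 2 ≤ δ * (X : ℝ) ^ ε := by
        calc 3 * ((2 : ℝ) ^ k) ^ 2 * L ^ (E + μ) * (P : ℝ) ^ 2 ≤
            3 * (32 * L ^ (3 * E + 1)) ^ 2 * L ^ (E + μ) * (4 * (x : ℝ) ^ (ε / 10)) ^ 2 := by gcongr
          _ = δ * ((98304 / δ * L ^ (6 * E + 2 + (E + μ))) * ((x : ℝ) ^ (ε / 10)) ^ 2 / 2) := by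
              field_simp
              ring
          _ ≤ δ * ((x : ℝ) ^ (4 * ε / 5) * ((x : ℝ) ^ (ε / 10)) ^ 2 / 2) := by gcongr
          _ = δ * ((x : ℝ) ^ ε / 2) := by
              rw [← Real.rpow_natCast ((x : ℝ) ^ (ε / 10)) 2, ← Real.rpow_mul hx0.le,
                ← Real.rpow_add hx0]
              congr 3
              push_cast
              ring
          _ ≤ δ * (X : ℝ) ^ ε := by gcongr
      rw [Real.rpow_sub hX0, Real.rpow_two]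
      have hMX : (M : ℝ) = X / (2 ^ k * P) := by
        rw [hXr]
        field_simp
      have hXε0 : 0 < (X : ℝ) ^ ε := by positivity
      rw [div_mul_eq_mul_div, div_le_iff₀ hXε0, hMX]
      have h3 : δ * ((X : ℝ) / (2 ^ k * P) * (X / L ^ E) / P) * (X : ℝ) ^ ε =
          (X : ℝ) ^ 2 * (δ * (X : ℝ) ^ ε) / (2 ^ k * P ^ 2 * L ^ E) := by
        field_simp
      rw [h3, le_div_iff₀ (by positivity)]
      calc (X : ℝ) ^ 2 * (2 ^ k * (3 * L ^ μ)) * (2 ^ k * P ^ 2 * L ^ E) =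
          (X : ℝ) ^ 2 * (3 * (2 ^ k) ^ 2 * L ^ (E + μ) * (P : ℝ) ^ 2) := by ring
        _ ≤ (X : ℝ) ^ 2 * (δ * (X : ℝ) ^ ε) := by gcongr
    calc (∑ m ∈ Ico M (2 * M), ((bd Φ Ψ δ X (1 + P * m)).card : ℝ)) * (2 ^ k * (3 * L ^ μ)) ≤
        (X : ℝ) ^ (2 - ε) * (2 ^ k * (3 * L ^ μ)) := by gcongr
      _ ≤ _ := h2
      _ ≤ δ * (M * cnt Ψ X 1 0 / P) := by gcongr
  · -- (7)
    intro m hm
    obtain ⟨q1, q2, q3⟩ := hq m hm
    have h1 := hC₃ (1 + P * m).primeFactors (fun p hp => Nat.prime_of_mem_primeFactors hp)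
    have h2 : ((∏ p ∈ (1 + P * m).primeFactors, p : ℕ) : ℝ) ≤ ((1 + P * m : ℕ) : ℝ) := by
      exact_mod_cast Nat.le_of_dvd (by omega) (Nat.prod_primeFactors_dvd _)
    have h3 : ((κ : ℝ) + 1) ^ (1 + P * m).primeFactors.card ≤ C₃ * ((1 + P * m : ℕ) : ℝ) ^ (1 / 8 : ℝ) := by
      refine le_trans (by exact_mod_cast h1) ?_
      apply mul_le_mul_of_nonneg_left _ (by linarith)
      exact Real.rpow_le_rpow (by positivity) h2 (by norm_num)
    have h4 := hcls m hm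
    generalize ((1 + P * m : ℕ) : ℝ) = q at *
    have hq0 : 0 < q := by nlinarith
    have hc0 : (0 : ℝ) ≤ cls Φ (1 + P * m) := Nat.cast_nonneg _
    have hqx : (x : ℝ) / 2 ≤ q := by linarith
    -- 32 C₃ q^(1/8) x^(1/10) L² ≤ δ q
    have h5 : 8 * C₃ * q ^ (1 / 8 : ℝ) * (x : ℝ) ^ (1 / 10 : ℝ) * L ^ μ ≤ δ * q := by
      have h6 : q = q ^ (1 / 8 : ℝ) * q ^ (7 / 8 : ℝ) := by
        rw [← Real.rpow_add hq0]; norm_num
      have h7 : (x : ℝ) ^ (7 / 8 : ℝ) / 2 ≤ q ^ (7 / 8 : ℝ) := by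
        calc (x : ℝ) ^ (7 / 8 : ℝ) / 2 ≤ ((x : ℝ) / 2) ^ (7 / 8 : ℝ) := by
              rw [Real.div_rpow hx0.le (by norm_num)]
              apply div_le_div_of_nonneg_left (by positivity) (by positivity)
              calc (2 : ℝ) ^ (7 / 8 : ℝ) ≤ (2 : ℝ) ^ (1 : ℝ) :=
                    Real.rpow_le_rpow_of_exponent_le (by norm_num) (by norm_num)
                _ = 2 := Real.rpow_one 2
          _ ≤ _ := Real.rpow_le_rpow (by positivity) hqx (by norm_num)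
      have h8 : (x : ℝ) ^ (7 / 8 : ℝ) = (x : ℝ) ^ (1 / 10 : ℝ) * (x : ℝ) ^ (31 / 40 : ℝ) := by
        rw [← Real.rpow_add hx0]; norm_num
      calc 8 * C₃ * q ^ (1 / 8 : ℝ) * (x : ℝ) ^ (1 / 10 : ℝ) * L ^ μ =
          δ * (q ^ (1 / 8 : ℝ) * ((x : ℝ) ^ (1 / 10 : ℝ) * (16 * C₃ / δ * L ^ μ) / 2)) := by
            field_simp
            ring
        _ ≤ δ * (q ^ (1 / 8 : ℝ) * ((x : ℝ) ^ (1 / 10 : ℝ) * (x : ℝ) ^ (31 / 40 : ℝ) / 2)) := by
            gcongr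
        _ = δ * (q ^ (1 / 8 : ℝ) * ((x : ℝ) ^ (7 / 8 : ℝ) / 2)) := by rw [h8]
        _ ≤ δ * (q ^ (1 / 8 : ℝ) * q ^ (7 / 8 : ℝ)) := by gcongr
        _ = δ * q := by rw [← h6]
    have h9 : (2 * ((κ : ℝ) + 1) ^ (1 + P * m).primeFactors.card * (P : ℝ)) * L ^ μ ≤
        (δ * cls Φ (1 + P * m)) * L ^ μ := by
      calc (2 * ((κ : ℝ) + 1) ^ (1 + P * m).primeFactors.card * (P : ℝ)) * L ^ μ ≤
          (2 * (C₃ * q ^ (1 / 8 : ℝ)) * (4 * (x : ℝ) ^ (1 / 10 : ℝ))) * L ^ μ := by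
            gcongr
            linarith
        _ = 8 * C₃ * q ^ (1 / 8 : ℝ) * (x : ℝ) ^ (1 / 10 : ℝ) * L ^ μ := by ring
        _ ≤ δ * q := h5
        _ ≤ δ * (cls Φ (1 + P * m) * L ^ μ) := by gcongr
        _ = _ := by ring
    exact le_of_mul_le_mul_right h9 (by positivity)
  · -- (8)
    have h1 : (6 : ℝ) * L ^ E ≤ δ * 2 ^ k := by
      have h2 : 6 / δ ≤ L := by linarith
      rw [div_le_iff₀ hδ0] at h2
      calc (6 : ℝ) * L ^ E ≤ (L * δ) * L ^ E := by gcongr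
        _ = δ * L ^ (E + 1) := by ring
        _ ≤ δ * 2 ^ k := by gcongr
    have h2 : (X : ℝ) / L ^ E ≤ cnt Ψ X 1 0 := hlow_k
    rw [div_le_iff₀ (by positivity)] at h2
    have h3 : 2 * (1 + (P : ℝ) * (2 * M)) ≤ 6 * (P * M) := by
      have : (1 : ℝ) ≤ P * M := by nlinarith
      linarith
    refine h3.trans ?_
    have h4 : (6 * ((P : ℝ) * M)) * L ^ E ≤ (δ * cnt Ψ X 1 0) * L ^ E := by
      calc (6 * ((P : ℝ) * M)) * L ^ E = (6 * L ^ E) * (P * M) := by ring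
        _ ≤ (δ * 2 ^ k) * (P * M) := by gcongr
        _ = δ * X := by rw [hXr]; ring
        _ ≤ δ * (cnt Ψ X 1 0 * L ^ E) := by gcongr
        _ = _ := by ring
    exact le_of_mul_le_mul_right h4 (by positivity)
  · -- (9)
    calc 6 * (2 : ℝ) ^ (k + 1) = 12 * 2 ^ k := by ring
      _ ≤ 12 * (32 * L ^ (3 * E + 1)) := by gcongr
      _ = δ * ((3072 / δ * L ^ (3 * E + 1)) / 8) := by field_simp; ring
      _ ≤ δ * ((x : ℝ) ^ (9 / 10 : ℝ) / 8) := by gcongr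
      _ ≤ δ * M := by gcongr

end Pool.Agent.H40.NG
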