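import Pool.Agent.H40.NG.Amp3
import Pool.Graph.R_pool_sql_team_seeded_c8625f6e.K4H14.MT.Tuple

/-!
# Systems of linear forms
-/

set_option autoImplicit false

namespace Pool.Agent.H40.NG

open Finset Filter Topology
open Pool.Agent.K4H14.FG (win UJ PJ omega_le two_pow_card)

variable {k : ℕ}

/-- the shift -/
def sf (b : Fin k → ℤ) : ℕ := 1 + ∑ i, (b i).natAbs

/-- the value of the form -/
def fo (a b : Fin k → ℤ) (i : Fin k) (n : ℕ) : ℤ := a i * n + b i

/-- the product of the shifted forms -/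
def PF (a b : Fin k → ℤ) (n : ℕ) : ℕ := ∏ i, (fo a b i (n + sf b)).toNat

/-- all shifted forms have prime values -/
def PP (a b : Fin k → ℤ) (n : ℕ) : Bool := decide (∀ i, (fo a b i (n + sf b)).toNat.Prime)

theorem fo_ge (a b : Fin k → ℤ) (ha : ∀ i, 0 < a i) (i : Fin k) (n : ℕ) : (n : ℤ) + 1 ≤ fo a b i (n + sf b) := by
  unfold fo
  have h1 : (b i).natAbs ≤ ∑ i, (b i).natAbs :=
    single_le_sum (f := fun i => (b i).natAbs) (fun _ _ => Nat.zero_le _) (mem_univ i)
  have h2 : ((n + sf b : ℕ) : ℤ) ≤ a i * ((n + sf b : ℕ) : ℤ) := by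
    have := ha i
    nlinarith [Int.natCast_nonneg (n + sf b)]
  have h3 : sf b = 1 + ∑ i, (b i).natAbs := rfl
  have h4 : ((n + sf b : ℕ) : ℤ) = n + sf b := by push_cast; ring
  have h5 : ((sf b : ℕ) : ℤ) = 1 + ((∑ i, (b i).natAbs : ℕ) : ℤ) := by rw [h3]; push_cast; ring
  have h6 : ((b i).natAbs : ℤ) ≤ ((∑ i, (b i).natAbs : ℕ) : ℤ) := by exact_mod_cast h1
  omega

theorem fo_toNat (a b : Fin k → ℤ) (ha : ∀ i, 0 < a i) (i : Fin k) (n : ℕ) :
    ((fo a b i (n + sf b)).toNat : ℤ) = fo a b i (n + sf b) := by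
  apply Int.toNat_of_nonneg
  have := fo_ge a b ha i n
  omega

theorem fo_toNat_ge (a b : Fin k → ℤ) (ha : ∀ i, 0 < a i) (i : Fin k) (n : ℕ) :
    n + 1 ≤ (fo a b i (n + sf b)).toNat := by
  have h1 := fo_ge a b ha i n
  have h2 := fo_toNat a b ha i n
  omega

theorem fo_per (a b : Fin k → ℤ) (i : Fin k) {m n q : ℕ} (h : m ≡ n [MOD q]) :
    fo a b i m ≡ fo a b i n [ZMOD q] := by
  unfold fo
  have h1 : (m : ℤ) ≡ n [ZMOD q] := (Int.natCast_modEq_iff).2 h
  exact (h1.mul_left _).add_right _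

theorem modEq_prod {ι : Type*} (s : Finset ι) (f g : ι → ℕ) (m : ℕ) (h : ∀ i ∈ s, f i ≡ g i [MOD m]) :
    ∏ i ∈ s, f i ≡ ∏ i ∈ s, g i [MOD m] := by
  classical
  induction s using Finset.induction_on with
  | empty => simp [Nat.ModEq]
  | insert a s ha ih =>
    rw [prod_insert ha, prod_insert ha]
    exact (h a (mem_insert_self _ _)).mul (ih fun i hi => h i (mem_insert_of_mem hi))

/-- the forms are admissible -/
def Ad (a b : Fin k → ℤ) : Prop := ∀ p : ℕ, p.Prime → ∃ n : ℤ, ∀ i, ¬ (p : ℤ) ∣ a i * n + b i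

theorem dvd_PF (a b : Fin k → ℤ) (ha : ∀ i, 0 < a i) (p : ℕ) (hp : p.Prime) (n : ℕ) :
    p ∣ PF a b n ↔ ∃ i, (p : ℤ) ∣ fo a b i (n + sf b) := by
  unfold PF
  rw [Prime.dvd_finsetProd_iff hp.prime]
  constructor
  · rintro ⟨i, -, h⟩
    refine ⟨i, ?_⟩
    rw [← fo_toNat a b ha i n]
    exact_mod_cast h
  · rintro ⟨i, h⟩
    refine ⟨i, mem_univ i, ?_⟩
    rw [← fo_toNat a b ha i n] at h
    exact_mod_cast h

theorem PF_roots (a b : Fin k → ℤ) (ha : ∀ i, 0 < a i) (had : Ad a b) (p : ℕ) (hp : p.Prime) :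
    ((range p).filter (fun m : ℕ => p ∣ PF a b m)).card ≤ k := by
  classical
  have hpi : Prime (p : ℤ) := Nat.prime_iff_prime_int.1 hp
  have h1 : (range p).filter (fun m : ℕ => p ∣ PF a b m) ⊆
      (univ : Finset (Fin k)).biUnion (fun i => (range p).filter (fun m : ℕ => (p : ℤ) ∣ fo a b i (m + sf b))) := by
    intro m hm
    rw [mem_filter, dvd_PF a b ha p hp] at hm
    obtain ⟨hm1, i, hi⟩ := hm
    rw [mem_biUnion]
    exact ⟨i, mem_univ i, mem_filter.2 ⟨hm1, hi⟩⟩
  refine (card_le_card h1).trans (card_biUnion_le.trans ?_)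
  have h2 : ∀ i ∈ (univ : Finset (Fin k)),
      ((range p).filter (fun m : ℕ => (p : ℤ) ∣ fo a b i (m + sf b))).card ≤ 1 := by
    intro i _
    rw [card_le_one]
    intro x hx y hy
    rw [mem_filter, mem_range] at hx hy
    have h3 : (p : ℤ) ∣ a i * ((x : ℤ) - y) := by
      have := dvd_sub hx.2 hy.2
      unfold fo at this
      push_cast at this
      have e : a i * ((x : ℤ) + sf b) + b i - (a i * (y + sf b) + b i) = a i * ((x : ℤ) - y) := by ring
      rwa [e] at this
    rcases hpi.dvd_or_dvd h3 with h | h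
    · exfalso
      obtain ⟨n, hn⟩ := had p hp
      apply hn i
      have h4 : (p : ℤ) ∣ b i := by
        have := hx.2
        unfold fo at this
        exact (dvd_add_right (h.mul_right _)).1 this
      exact dvd_add (h.mul_right _) h4
    · have h5 : (y : ℤ) ≡ x [ZMOD p] := (Int.modEq_iff_dvd).2 h
      have h6 : y ≡ x [MOD p] := (Int.natCast_modEq_iff).1 h5
      exact (Nat.ModEq.eq_of_lt_of_lt h6 hy.1 hx.1).symm
  calc ∑ i, ((range p).filter (fun m : ℕ => (p : ℤ) ∣ fo a b i (m + sf b))).card ≤ ∑ i : Fin k, 1 := sum_le_sum h2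
    _ = k := by simp

theorem PF_ad (a b : Fin k → ℤ) (ha : ∀ i, 0 < a i) (had : Ad a b) (p : ℕ) (hp : p.Prime) :
    ((range p).filter (fun m : ℕ => p ∣ PF a b m)).card < p := by
  obtain ⟨n, hn⟩ := had p hp
  have hp0 : (0 : ℤ) < p := by exact_mod_cast hp.pos
  obtain ⟨x, hx⟩ : ∃ x : ℕ, (x : ℤ) = (n - sf b) % p :=
    ⟨((n - sf b) % p).toNat, Int.toNat_of_nonneg (Int.emod_nonneg _ hp0.ne')⟩
  have hxp : x < p := by
    have := Int.emod_lt_of_pos (n - sf b) hp0
    omega
  have h1 : ¬ p ∣ PF a b x := by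
    rw [dvd_PF a b ha p hp]
    rintro ⟨i, hi⟩
    apply hn i
    unfold fo at hi
    push_cast at hi
    rw [hx] at hi
    have h2 : (p : ℤ) ∣ (n - sf b) - (n - sf b) % p := by
      refine ⟨(n - sf b) / p, ?_⟩
      have := Int.emod_add_mul_ediv (n - sf b) p
      linarith
    have h3 := dvd_add hi (h2.mul_left (a i))
    have e : a i * ((n - sf b) % p + sf b) + b i + a i * ((n - sf b) - (n - sf b) % p) = a i * n + b i := by ring
    rwa [e] at h3
  calc ((range p).filter (fun m : ℕ => p ∣ PF a b m)).card < (range p).card := by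
        apply card_lt_card
        rw [Finset.ssubset_iff_of_subset (filter_subset _ _)]
        exact ⟨x, mem_range.2 hxp, fun h => h1 (mem_filter.1 h).2⟩
    _ = p := card_range p

theorem PF_per (a b : Fin k → ℤ) (ha : ∀ i, 0 < a i) (m n : ℕ) : PF a b (n + m) ≡ PF a b n [MOD m] := by
  unfold PF
  apply modEq_prod
  intro i _
  rw [← Int.natCast_modEq_iff, fo_toNat a b ha, fo_toNat a b ha]
  apply fo_per
  have e : n + m + sf b = n + sf b + m := by ring
  rw [Nat.ModEq, e, Nat.add_mod_right]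

theorem per_PF (a b : Fin k → ℤ) (ha : ∀ i, 0 < a i) (had : Ad a b) : Per (PF a b) k where
  per := PF_per a b ha
  roots := PF_roots a b ha had
  ad := PF_ad a b ha had
  pos := fun n => prod_pos fun i _ => by
    have := fo_toNat_ge a b ha i n
    omega

theorem prm_PF (a b : Fin k → ℤ) (ha : ∀ i, 0 < a i) : Prm (PF a b) (PP a b) where
  cop := by
    intro n q hq hqn hP
    unfold PP at hP
    have hP' := of_decide_eq_true hP
    unfold PF
    apply Nat.Coprime.prod_left
    intro i _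
    rw [Nat.Prime.coprime_iff_not_dvd (hP' i)]
    intro hd
    have h1 := Nat.le_of_dvd hq hd
    have := fo_toNat_ge a b ha i n
    omega

theorem fo_inj (a b : Fin k → ℤ) (ha : ∀ i, 0 < a i) (i : Fin k) {m n : ℕ}
    (h : (fo a b i (m + sf b)).toNat = (fo a b i (n + sf b)).toNat) : m = n := by
  have h1 : fo a b i (m + sf b) = fo a b i (n + sf b) := by
    have e1 := fo_toNat a b ha i m
    have e2 := fo_toNat a b ha i n
    rw [h] at e1
    exact e1.symm.trans e2
  unfold fo at h1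
  push_cast at h1
  have h2 : a i * ((m : ℤ) - n) = 0 := by linarith
  rcases mul_eq_zero.1 h2 with h3 | h3
  · have := ha i
    omega
  · omega

theorem exp_big (k : ℕ) : ∃ w₀ : ℕ, ∀ w : ℕ, w₀ ≤ w → (k * w) ^ 2 ≤ 2 ^ w := by
  have h1 : Tendsto (fun w : ℕ => (w : ℝ) ^ 2 / 2 ^ w) atTop (𝓝 0) :=
    tendsto_pow_const_div_const_pow_of_one_lt 2 (by norm_num)
  have h2 := h1.const_mul ((k : ℝ) ^ 2)
  rw [mul_zero] at h2
  obtain ⟨w₀, hw₀⟩ := eventually_atTop.1 (h2.eventually_le_const (show (0 : ℝ) < 1 by norm_num))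
  refine ⟨w₀, fun w hw => ?_⟩
  have h3 := hw₀ w hw
  rw [mul_div_assoc', div_le_one (by positivity)] at h3
  have h4 : (((k * w) ^ 2 : ℕ) : ℝ) ≤ ((2 ^ w : ℕ) : ℝ) := by
    push_cast
    rw [mul_pow]
    exact h3
  exact_mod_cast h4

theorem few_PF (a b : Fin k → ℤ) (ha : ∀ i, 0 < a i) : ∃ q₀ : ℕ, Few (PF a b) (PP a b) q₀ := by
  classical
  obtain ⟨w₀, hw₀⟩ := exp_big k
  refine ⟨(k * w₀) ^ 2 + 1, fun q hq S hS => ?_⟩
  have hq1 : 1 ≤ q := by omega
  have h1 : S.card ≤ k * q.primeFactors.card := by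
    have h2 : S.card ≤ ((univ : Finset (Fin k)) ×ˢ q.primeFactors).card := by
      have h3 : ∀ n ∈ S, ∃ i : Fin k, (fo a b i (n + sf b)).toNat ∈ q.primeFactors := by
        intro n hn
        obtain ⟨h4, h5⟩ := hS n hn
        unfold PP at h4
        have h4' := of_decide_eq_true h4
        by_contra hc
        push Not at hc
        apply h5
        unfold PF
        apply Nat.Coprime.prod_left
        intro i _
        rw [Nat.Prime.coprime_iff_not_dvd (h4' i)]
        intro hd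
        exact hc i (Nat.mem_primeFactors.2 ⟨h4' i, hd, by omega⟩)
      rcases isEmpty_or_nonempty (Fin k) with hemp | hne
      · have hS0 : S = ∅ := by
          apply eq_empty_of_forall_notMem
          intro n hn
          obtain ⟨i, _⟩ := h3 n hn
          exact hemp.false i
        rw [hS0]
        simp
      choose! i hi using h3
      refine card_le_card_of_injOn (fun n => (i n, (fo a b (i n) (n + sf b)).toNat)) ?_ ?_
      · intro n hn
        rw [mem_coe, mem_product]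
        exact ⟨mem_univ _, hi n hn⟩
      · intro m hm n hn h
        simp only [Prod.mk.injEq] at h
        rw [h.1] at h
        exact fo_inj a b ha _ h.2
    rw [card_product, card_univ, Fintype.card_fin] at h2
    exact h2
  refine h1.trans ?_
  rw [Nat.le_sqrt']
  rcases Nat.lt_or_ge q.primeFactors.card w₀ with h | h
  · have h2 : (k * q.primeFactors.card) ^ 2 ≤ (k * w₀) ^ 2 :=
      Nat.pow_le_pow_left (Nat.mul_le_mul_left _ h.le) 2
    omega
  · exact (hw₀ _ h).trans (two_pow_card q hq1)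

theorem prod_low_k (k : ℕ) (hk : 1 ≤ k) (S : Finset ℕ) : (∀ n ∈ S, 2 * k ≤ n) →
    (S.card + 2 * k ≤ 2 * k + S.card) ∧ ((k : ℝ) / (k + S.card)) ^ k ≤ ∏ n ∈ S, (1 - (k : ℝ) / (n : ℝ)) := by
  have hkr : (1 : ℝ) ≤ k := by exact_mod_cast hk
  induction S using Finset.induction_on_max with
  | empty =>
    intro _
    refine ⟨by omega, ?_⟩
    simp only [card_empty, Nat.cast_zero, add_zero, prod_empty]
    rw [div_self (by linarith), one_pow]
  | insert a s hmax ih =>
    intro h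
    refine ⟨by omega, ?_⟩
    have ha : a ∉ s := fun h' => lt_irrefl _ (hmax a h')
    have ih' := (ih (fun n hn => h n (mem_insert_of_mem hn))).2
    rw [prod_insert ha, card_insert_of_notMem ha]
    push_cast
    have h1 : s ⊆ Ico (2 * k) a := fun x hx => mem_Ico.2 ⟨h x (mem_insert_of_mem hx), hmax x hx⟩
    have h2 := card_le_card h1
    rw [Nat.card_Ico] at h2
    have h3 := h a (mem_insert_self _ _)
    have h4 : 2 * (k : ℝ) + s.card ≤ a := by exact_mod_cast (by omega : 2 * k + s.card ≤ a)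
    have hw : (0 : ℝ) ≤ s.card := Nat.cast_nonneg _
    generalize (s.card : ℝ) = w at *
    have h5 : (k + w) / (2 * k + w) ≤ 1 - (k : ℝ) / (a : ℝ) := by
      have h6 : (k : ℝ) / a ≤ k / (2 * k + w) := div_le_div_of_nonneg_left (by linarith) (by linarith) h4
      have h7 : (k + w) / (2 * k + w) = 1 - (k : ℝ) / (2 * k + w) := by
        field_simp
        ring
      linarith
    have h8 : ((k + w) / (k + (w + 1))) ^ k ≤ (k + w) / (2 * k + w) := by
      have h9 := one_add_mul_le_pow (a := 1 / (k + w)) (by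
        have : (0 : ℝ) ≤ 1 / (k + w) := by positivity
        linarith) k
      have e1 : 1 + (k : ℝ) * (1 / (k + w)) = (2 * k + w) / (k + w) := by
        field_simp
        ring
      have e2 : 1 + 1 / ((k : ℝ) + w) = (k + (w + 1)) / (k + w) := by
        field_simp
        ring
      rw [e1, e2] at h9
      have e3 : ((k + w) / (k + (w + 1))) ^ k = (((k + (w + 1)) / (k + w)) ^ k)⁻¹ := by
        rw [← inv_pow, inv_div]
      have e4 : (k + w) / (2 * k + w) = ((2 * (k : ℝ) + w) / (k + w))⁻¹ := by rw [inv_div]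
      rw [e3, e4]
      exact inv_anti₀ (by positivity) h9
    calc ((k : ℝ) / (k + (w + 1))) ^ k = ((k + w) / (k + (w + 1))) ^ k * (k / (k + w)) ^ k := by
          rw [← mul_pow]
          congr 1
          field_simp
      _ ≤ (1 - (k : ℝ) / (a : ℝ)) * ∏ n ∈ s, (1 - (k : ℝ) / (n : ℝ)) := by
          apply mul_le_mul (h8.trans h5) ih' (by positivity)
          exact le_trans (by positivity) h5

theorem cge_PF (a b : Fin k → ℤ) (ha : ∀ i, 0 < a i) (had : Ad a b) (hk : 1 ≤ k) :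
    ∃ L₀ : ℝ, Cge (PF a b) (k + 1) L₀ := by
  have hP : Per (PF a b) k := per_PF a b ha had
  have hkr : (1 : ℝ) ≤ k := by exact_mod_cast hk
  refine ⟨2 + (2 * k) ^ (2 * k) * 2 ^ k, fun q hq L hL hlog => ?_⟩
  have hc0 : (0 : ℝ) < (2 * k) ^ (2 * k) := by positivity
  have hL2 : 2 ≤ L := by
    have : (0 : ℝ) < (2 * k) ^ (2 * k) * 2 ^ k := by positivity
    linarith
  have hL0 : 0 < L := by linarith
  have hw := omega_le q hq L hlog
  rw [cls_eq q hq]
  set T := q.primeFactors with hT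
  have hTp : ∀ p ∈ T, p.Prime := fun p hp => Nat.prime_of_mem_primeFactors hp
  -- the small primes
  have h1 : ((1 : ℝ) / (2 * k)) ^ (2 * k) ≤ ∏ p ∈ T.filter (fun p => ¬ 2 * k ≤ p), lf (PF a b) p := by
    have h2 : ∀ p ∈ T.filter (fun p => ¬ 2 * k ≤ p), (1 : ℝ) / (2 * k) ≤ lf (PF a b) p := by
      intro p hp
      rw [mem_filter] at hp
      have hpp := hTp p hp.1
      have hp0 : (0 : ℝ) < p := by exact_mod_cast hpp.pos
      have h3 := PF_ad a b ha had p hpp
      have h4 : ((rt (PF a b) p : ℕ) : ℝ) ≤ p - 1 := by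
        have h5 : rt (PF a b) p + 1 ≤ p := h3
        have h6 : ((rt (PF a b) p : ℕ) : ℝ) + 1 ≤ p := by exact_mod_cast h5
        linarith
      unfold lf
      have h5 : (rt (PF a b) p : ℝ) / p ≤ 1 - 1 / p := by
        rw [div_le_iff₀ hp0, sub_mul, one_mul, div_mul_cancel₀ _ hp0.ne']
        exact h4
      have h6 : (1 : ℝ) / (2 * k) ≤ 1 / p := by
        apply div_le_div_of_nonneg_left (by norm_num) hp0
        exact_mod_cast (by omega : p ≤ 2 * k)
      linarith
    have h3 : (T.filter (fun p => ¬ 2 * k ≤ p)).card ≤ 2 * k := by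
      have : T.filter (fun p => ¬ 2 * k ≤ p) ⊆ range (2 * k) := by
        intro p hp
        rw [mem_filter] at hp
        rw [mem_range]
        omega
      have := card_le_card this
      rwa [card_range] at this
    calc ((1 : ℝ) / (2 * k)) ^ (2 * k) ≤ (1 / (2 * k)) ^ (T.filter (fun p => ¬ 2 * k ≤ p)).card := by
          apply pow_le_pow_of_le_one (by positivity) _ h3
          rw [div_le_one (by linarith)]
          linarith
      _ = ∏ p ∈ T.filter (fun p => ¬ 2 * k ≤ p), (1 : ℝ) / (2 * k) := by rw [prod_const]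
      _ ≤ _ := Finset.prod_le_prod (fun _ _ => by positivity) h2
  -- the large primes
  have h2 : ((1 : ℝ) / (2 * L)) ^ k ≤ ∏ p ∈ T.filter (fun p => 2 * k ≤ p), lf (PF a b) p := by
    have h3 := (prod_low_k k hk (T.filter (fun p => 2 * k ≤ p)) (fun n hn => (mem_filter.1 hn).2)).2
    have h4 : ∏ n ∈ T.filter (fun p => 2 * k ≤ p), (1 - (k : ℝ) / (n : ℝ)) ≤
        ∏ p ∈ T.filter (fun p => 2 * k ≤ p), lf (PF a b) p := by
      apply Finset.prod_le_prod
      · intro p hp
        rw [mem_filter] at hp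
        have hp2 : 2 * (k : ℝ) ≤ p := by exact_mod_cast hp.2
        rw [sub_nonneg, div_le_one (by linarith)]
        linarith
      · intro p hp
        rw [mem_filter] at hp
        unfold lf
        have h5 : ((rt (PF a b) p : ℕ) : ℝ) ≤ k := by exact_mod_cast PF_roots a b ha had p (hTp p hp.1)
        have h6 : (rt (PF a b) p : ℝ) / p ≤ k / p := div_le_div_of_nonneg_right h5 (by positivity)
        linarith
    refine le_trans ?_ (h3.trans h4)
    apply pow_le_pow_left₀ (by positivity)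
    have h5 : ((T.filter (fun p => 2 * k ≤ p)).card : ℝ) ≤ T.card := by exact_mod_cast card_filter_le _ _
    rw [div_le_div_iff₀ (by positivity) (by positivity)]
    nlinarith
  rw [← prod_filter_mul_prod_filter_not T (fun p => 2 * k ≤ p)]
  have h3 : ((1 : ℝ) / (2 * L)) ^ k * (1 / (2 * k)) ^ (2 * k) ≤
      (∏ p ∈ T.filter (fun p => 2 * k ≤ p), lf (PF a b) p) *
        ∏ p ∈ T.filter (fun p => ¬ 2 * k ≤ p), lf (PF a b) p := by
    apply mul_le_mul h2 h1 (by positivity)
    exact le_trans (by positivity) h2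
  have h4 : 1 ≤ ((1 : ℝ) / (2 * L)) ^ k * (1 / (2 * k)) ^ (2 * k) * L ^ (k + 1) := by
    have e : ((1 : ℝ) / (2 * L)) ^ k * (1 / (2 * k)) ^ (2 * k) * L ^ (k + 1) =
        L / ((2 * k) ^ (2 * k) * 2 ^ k) := by
      rw [one_div_pow, one_div_pow, mul_pow 2 L k, pow_succ]
      field_simp
    rw [e, one_le_div (by positivity)]
    linarith
  have hq0 : (0 : ℝ) ≤ q := Nat.cast_nonneg _
  calc (q : ℝ) = q * 1 := (mul_one _).symm
    _ ≤ q * (((1 : ℝ) / (2 * L)) ^ k * (1 / (2 * k)) ^ (2 * k) * L ^ (k + 1)) :=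
        mul_le_mul_of_nonneg_left h4 hq0
    _ ≤ q * (((∏ p ∈ T.filter (fun p => 2 * k ≤ p), lf (PF a b) p) *
        ∏ p ∈ T.filter (fun p => ¬ 2 * k ≤ p), lf (PF a b) p) * L ^ (k + 1)) := by
        apply mul_le_mul_of_nonneg_left _ hq0
        exact mul_le_mul_of_nonneg_right h3 (by positivity)
    _ = _ := by ring

theorem win_PF (a b : Fin k → ℤ) (ha : ∀ i, 0 < a i) (had : Ad a b) (hk : 1 ≤ k) (N : ℕ) (hN : 1 ≤ N) :
    ∀ᶠ z : ℝ in atTop, ∀ j ∈ range N, ∏ p ∈ win z N j, lf (PF a b) p ≤ 1 - 1 / (4 * N) := by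
  have hP : Per (PF a b) k := per_PF a b ha had
  have h1 := (eventually_all_finset (range N) (l := atTop)
      (p := fun j (z : ℝ) => ∏ p ∈ win z N j, (1 - (p : ℝ)⁻¹) ≤ 1 - 1 / (4 * N))).2
      (fun j hj => Pool.Agent.K4H14.MT.win_one N hN j (mem_range.1 hj))
  have h2 : Tendsto (fun z : ℝ => z ^ (1 / 2 : ℝ)) atTop atTop := tendsto_rpow_atTop (by norm_num)
  set i₀ : Fin k := ⟨0, hk⟩ with hi₀
  filter_upwards [h1, h2.eventually_gt_atTop ((a i₀ : ℤ) : ℝ), eventually_ge_atTop (1 : ℝ)] with z hz hza hz1 j hj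
  refine le_trans ?_ (hz j hj)
  apply Finset.prod_le_prod
  · intro p hp
    unfold win at hp
    exact (lf_pos p (mem_filter.1 hp).2).le
  · intro p hp
    unfold win at hp
    rw [mem_filter, mem_Ico] at hp
    have hpp := hp.2
    have h3 : z ^ (1 / 2 : ℝ) ≤ p := by
      refine le_trans ?_ (Nat.ceil_le.1 hp.1.1)
      exact Real.rpow_le_rpow_of_exponent_le hz1 (Pool.Agent.K4H14.FG.th_half N j)
    have h4 : (a i₀ : ℤ) < p := by
      have : ((a i₀ : ℤ) : ℝ) < p := lt_of_lt_of_le hza h3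
      exact_mod_cast this
    have hpa : ¬ (p : ℤ) ∣ a i₀ := fun h => by
      have := Int.le_of_dvd (ha i₀) h
      omega
    have hp0 : (0 : ℝ) < p := by exact_mod_cast hpp.pos
    have h5 : 1 ≤ rt (PF a b) p := by
      unfold rt
      rw [Nat.one_le_iff_ne_zero, ← Nat.pos_iff_ne_zero, card_pos]
      -- a root
      have hpz : (0 : ℤ) < p := by exact_mod_cast hpp.pos
      have hcop : IsCoprime (a i₀) (p : ℤ) :=
        ((Nat.prime_iff_prime_int.1 hpp).coprime_iff_not_dvd.2 hpa).symm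
      obtain ⟨u, v, huv⟩ := hcop
      obtain ⟨x, hx⟩ : ∃ x : ℕ, (x : ℤ) = (-(b i₀ * u) - sf b) % p :=
        ⟨((-(b i₀ * u) - sf b) % p).toNat, Int.toNat_of_nonneg (Int.emod_nonneg _ hpz.ne')⟩
      have hxp : x < p := by
        have := Int.emod_lt_of_pos (-(b i₀ * u) - sf b) hpz
        omega
      refine ⟨x, mem_filter.2 ⟨mem_range.2 hxp, ?_⟩⟩
      rw [dvd_PF a b ha p hpp]
      refine ⟨i₀, ?_⟩
      unfold fo
      push_cast
      rw [hx]
      refine ⟨b i₀ * v - a i₀ * ((-(b i₀ * u) - sf b) / p), ?_⟩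
      have h6 := Int.emod_add_mul_ediv (-(b i₀ * u) - sf b) p
      have h7 : (-(b i₀ * u) - sf b) % p = (-(b i₀ * u) - sf b) - p * ((-(b i₀ * u) - sf b) / p) := by linarith
      rw [h7]
      linear_combination (-(b i₀)) * huv
    unfold lf
    have h6 : (1 : ℝ) ≤ rt (PF a b) p := by exact_mod_cast h5
    have h7 : (p : ℝ)⁻¹ ≤ (rt (PF a b) p : ℝ) / p := by
      rw [inv_eq_one_div]
      exact div_le_div_of_nonneg_right h6 hp0.le
    linarith

theorem up_PF (a b : Fin k → ℤ) (ha : ∀ i, 0 < a i) :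
    ∃ K : ℝ, 1 ≤ K ∧ ∀ n : ℕ, (PF a b n : ℝ) ≤ K * (n + 1) ^ k := by
  refine ⟨∏ i, ((a i : ℝ) * (1 + sf b) + |(b i : ℝ)|), ?_, fun n => ?_⟩
  · have h : ∀ i ∈ (univ : Finset (Fin k)), (1 : ℝ) ≤ (a i : ℝ) * (1 + sf b) + |(b i : ℝ)| := by
      intro i _
      have h1 : (1 : ℝ) ≤ a i := by exact_mod_cast ha i
      have h2 : (0 : ℝ) ≤ sf b := Nat.cast_nonneg _
      have h3 := abs_nonneg (b i : ℝ)
      nlinarith
    calc (1 : ℝ) = ∏ i : Fin k, (1 : ℝ) := by simp
      _ ≤ _ := Finset.prod_le_prod (fun _ _ => by norm_num) h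
  · have e : ((n : ℝ) + 1) ^ k = ∏ i : Fin k, ((n : ℝ) + 1) := by simp
    rw [e, ← prod_mul_distrib]
    unfold PF
    push_cast
    apply Finset.prod_le_prod
    · intro i _
      exact Nat.cast_nonneg _
    · intro i _
      have h1 : (((fo a b i (n + sf b)).toNat : ℕ) : ℝ) = (a i : ℝ) * (n + sf b) + b i := by
        have h2 : (((fo a b i (n + sf b)).toNat : ℤ) : ℝ) = ((fo a b i (n + sf b) : ℤ) : ℝ) := by
          rw [fo_toNat a b ha]
        unfold fo at h2 ⊢
        push_cast at h2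
        exact h2
      rw [h1]
      have h2 : (1 : ℝ) ≤ a i := by exact_mod_cast ha i
      have h3 : (0 : ℝ) ≤ sf b := Nat.cast_nonneg _
      have h4 : (0 : ℝ) ≤ n := Nat.cast_nonneg _
      have h5 : (n : ℝ) + sf b ≤ (1 + sf b) * (n + 1) := by nlinarith
      have h6 := mul_le_mul_of_nonneg_left h5 (by linarith : (0 : ℝ) ≤ a i)
      have h7 : (b i : ℝ) ≤ |(b i : ℝ)| * (n + 1) := by
        have := le_abs_self (b i : ℝ)
        have := abs_nonneg (b i : ℝ)
        nlinarith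
      nlinarith

end Pool.Agent.H40.NG
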